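import Pool.Agent.H896.SG.Wild3
import Pool.Agent.H509.BT.Fin2

/-!
# The signature condition
-/

set_option autoImplicit false

open NumberField IsDedekindDomain

noncomputable section

namespace Pool.Agent.H896.SG

open Pool.Agent.BT9
open Pool.Agent.Q92.AR (prin Unramified)
open Pool.Agent.K3h30.RS

/-- The valuation of `x` at `v` is the valuation of a square. -/
def EvenVal {F : Type} [Field F] [NumberField F] (v : HeightOneSpectrum (𝓞 F)) (x : F) : Prop :=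
  ∃ y : F, v.valuation F x = v.valuation F y ^ 2

theorem even_of_evenVal {F : Type} [Field F] [NumberField F] {v : HeightOneSpectrum (𝓞 F)}
    {x : Fˣ} (h : EvenVal v (x : F)) : Even (prin x v) := by
  obtain ⟨y, hy⟩ := h
  have hy0 : y ≠ 0 := by
    rintro rfl
    rw [map_zero, zero_pow two_ne_zero, map_eq_zero] at hy
    exact x.ne_zero hy
  have h1 : v.valuation F y = WithZero.exp (-(prin (Units.mk0 y hy0) v)) :=
    Pool.Agent.Q125.AR.valuation_eq_exp (Units.mk0 y hy0) v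
  rw [Pool.Agent.Q125.AR.valuation_eq_exp, h1, ← WithZero.exp_nsmul, WithZero.exp_inj,
    nsmul_eq_mul] at hy
  push_cast at hy
  exact ⟨prin (Units.mk0 y hy0) v, by omega⟩

theorem evenVal_unit {F : Type} [Field F] [NumberField F] (v : HeightOneSpectrum (𝓞 F))
    (u : (𝓞 F)ˣ) : EvenVal v ((u : 𝓞 F) : F) := by
  refine ⟨1, ?_⟩
  have h1 : (u : 𝓞 F) ∉ v.asIdeal := fun h =>
    v.isPrime.ne_top (Ideal.eq_top_of_isUnit_mem _ h u.isUnit)
  rw [map_one, one_pow]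
  exact v.valuation_eq_one_iff_notMem.2 h1

variable {F H G : Type} [Field F] [NumberField F] [Field H] [NumberField H] [Algebra F H]
  [CommGroup G] [Finite G] [MulSemiringAction G H] [IsGaloisGroup G F H]

/-- the signature condition -/
theorem card_of_signs (D : RubinData F H G) (hG : ∀ g : G, g * g = 1)
    (hF : ∀ v : InfinitePlace F, v.IsReal)
    (h : (∀ χ χ' : H →+* ℝ, χ.comp (algebraMap F H) = χ'.comp (algebraMap F H)) ∨
      (∀ s : Set (F →+* ℝ), ∃ u : (𝓞 F)ˣ, ∀ φ : F →+* ℝ, φ ((u : 𝓞 F) : F) < 0 ↔ φ ∈ s) ∨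
      (∀ χ : H →+* ℝ, ∃ x : F, χ (algebraMap F H x) < 0 ∧
        (∀ χ' : H →+* ℝ, χ'.comp (algebraMap F H) ≠ χ.comp (algebraMap F H) →
          0 < χ' (algebraMap F H x)) ∧
        ∀ v : HeightOneSpectrum (𝓞 F),
          Squarefree (v.asIdeal.map (algebraMap (𝓞 F) (𝓞 H))) → EvenVal v x)) :
    Nat.card (Sg D) ≤ 2 ^ sc D := by
  obtain ⟨Λ⟩ := all_lam F H G D hG
  refine card_le_signs D hG Λ hF ?_
  rcases h with h | h | h
  · rintro φ ⟨χ, hχ⟩
    refine ⟨-1, ?_, fun φ' hne hφ' => ?_, fun v _ => even_of_evenVal ?_⟩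
    · rw [Units.val_neg, Units.val_one, map_neg, map_one]
      norm_num
    · obtain ⟨χ', hχ'⟩ := hφ'
      exact absurd (by rw [← hχ', ← hχ, h χ' χ]) hne
    · have h1 := evenVal_unit v (-1 : (𝓞 F)ˣ)
      simpa using h1
  · intro φ hφ
    obtain ⟨u, hu⟩ := h {φ}
    have hu0 : ((u : 𝓞 F) : F) ≠ 0 := by
      intro h0
      exact u.ne_zero (RingOfIntegers.coe_eq_zero_iff.1 h0)
    refine ⟨Units.mk0 ((u : 𝓞 F) : F) hu0, (hu φ).2 rfl, fun φ' hne _ => ?_, fun v _ =>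
      even_of_evenVal (evenVal_unit v u)⟩
    have h1 : ¬ φ' ((u : 𝓞 F) : F) < 0 := fun h2 => hne ((hu φ').1 h2)
    exact lt_of_le_of_ne (not_lt.1 h1) ((map_ne_zero φ').2 hu0).symm
  · rintro φ ⟨χ, hχ⟩
    obtain ⟨x, hx1, hx2, hx3⟩ := h χ
    have hx0 : x ≠ 0 := by
      rintro rfl
      rw [map_zero, map_zero] at hx1
      exact lt_irrefl _ hx1
    have hφ : ∀ y : F, φ y = χ (algebraMap F H y) := fun y => by rw [← hχ]; rfl
    refine ⟨Units.mk0 x hx0, ?_, fun φ' hne hφ' => ?_, fun v hv => even_of_evenVal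
      (hx3 v (Pool.Agent.H788.BT.squarefree_of_unr hv))⟩
    · change φ x < 0
      rw [hφ]
      exact hx1
    · obtain ⟨χ', hχ'⟩ := hφ'
      change 0 < φ' x
      rw [← hχ']
      refine hx2 χ' fun h1 => hne ?_
      rw [← hχ', ← hχ, h1]

open Classical in
/-- the forms of the hypothesis -/
theorem card_of_cases (D : RubinData F H G) (hG : ∀ g : G, g * g = 1)
    (h : Nat.card (Subgroup.closure {γ : G | ∃ w : Place H,
          InS (D.S : Set (HeightOneSpectrum (𝓞 F))) w ∧ Fixes w γ}) ≤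
        2 ^ (Fintype.card (InfinitePlace F) + D.S.card - D.r) ∨
      (∃ W : Finset (HeightOneSpectrum (𝓞 F)), (∀ v : HeightOneSpectrum (𝓞 F),
          (2 : 𝓞 F) ∈ v.asIdeal → ¬ Squarefree (v.asIdeal.map (algebraMap (𝓞 F) (𝓞 H))) → v ∈ W) ∧
        ∑ v ∈ W, deg2 v ≤ 1 + Nat.card {v : InfinitePlace F // v.IsReal ∧
          ∀ w : InfinitePlace H, w.comap (algebraMap F H) = v → w.IsComplex}) ∨
      ((∀ v : InfinitePlace F, v.IsReal) ∧
        ((∀ χ χ' : H →+* ℝ, χ.comp (algebraMap F H) = χ'.comp (algebraMap F H)) ∨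
        (∀ s : Set (F →+* ℝ), ∃ u : (𝓞 F)ˣ, ∀ φ : F →+* ℝ, φ ((u : 𝓞 F) : F) < 0 ↔ φ ∈ s) ∨
        (∀ χ : H →+* ℝ, ∃ x : F, χ (algebraMap F H x) < 0 ∧
          (∀ χ' : H →+* ℝ, χ'.comp (algebraMap F H) ≠ χ.comp (algebraMap F H) →
            0 < χ' (algebraMap F H x)) ∧
          ∀ v : HeightOneSpectrum (𝓞 F),
            Squarefree (v.asIdeal.map (algebraMap (𝓞 F) (𝓞 H))) → EvenVal v x)))) :
    Nat.card (Sg D) ≤ 2 ^ sc D := by
  rcases h with h | h | ⟨h1, h2⟩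
  · exact Pool.Agent.BT9.card_of_cases D hG (Or.inl h)
  · exact Pool.Agent.BT9.card_of_cases D hG (Or.inr (Or.inl h))
  · exact card_of_signs D hG h1 h2

end Pool.Agent.H896.SG
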