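import Pool.Agent.H896.SG.IsoC
import Pool.Agent.H896.SG.Main
import Pool.Agent.H896.SE.Main

/-!
# Stark's conjecture for exponent two, all fields but the maximal ones
-/

set_option autoImplicit false
set_option linter.unusedSectionVars false
set_option linter.deprecated false

open NumberField IsDedekindDomain Filter Topology Module

noncomputable section

namespace Pool.Agent.H896.SG

open Pool.Agent.BT9
open Pool.Agent.Q92.AR (prin up Unramified prin_mul prin_inv prin_one)
open Pool.Agent.K3h30.RS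
open Pool.Agent.Q20.EX (Inert)
open Pool.Agent.N598.ST (Unram Data Stark TotallySplit Over)
open Pool.Agent.STk (CG toCG toCG_smul SigmaG two_finite sum_deg_le split_or)
open Pool.Agent.H896.SE (NearSq UnramifiedEverywhere unram_iff unram_of_nearSq)

/-- There is an `x ∈ K^*` with even valuations at the prime ideals which are unramified in `H`, such
that `√x` is not in the compositum of `H` and the maximal abelian extension `K'` of `K` which is
unramified at all places and in which the prime ideals ramified in `H` are totally split: if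
`y ∈ K^*` is a square in `H`, then `x y` is not a square in a finite extension `E ⊆ K'`. -/
def NotMaximal (K H : Type) [Field K] [NumberField K] [Field H] [NumberField H] [Algebra K H] :
    Prop :=
  ∃ x : K, x ≠ 0 ∧ (∀ v : HeightOneSpectrum (𝓞 K), Unram K H v → EvenVal v x) ∧
    ∀ (E : Type) [Field E] [NumberField E] [Algebra K E] [IsAbelianGalois K E],
      UnramifiedEverywhere K E →
      (∀ v : HeightOneSpectrum (𝓞 K), ¬ Unram K H v → TotallySplit K E (Sum.inr v)) →
      ∀ (y : K) (b : H) (e : E), y ≠ 0 → b ^ 2 = algebraMap K H y →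
        e ^ 2 ≠ algebraMap K E (x * y)

section
variable {K E : Type} [Field K] [NumberField K] [Field E] [NumberField E] [Algebra K E]
  [IsAbelianGalois K E]

theorem unram_of_even (ψ : (E ≃ₐ[K] E) →* ℂˣ) (hψ : Function.Injective ψ) (x : Kˣ) (h : E)
    (hx : algebraMap K E (x : K) = h ^ 2) (hgen : ∀ g : E ≃ₐ[K] E, g h = h → g = 1)
    (v : HeightOneSpectrum (𝓞 K)) (h2 : (2 : 𝓞 K) ∉ v.asIdeal) (hn : Even (prin x v)) :
    Unram K E v := by
  intro P hP
  have hPp := P.isPrime
  have hvp := v.isPrime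
  have hPv : P.under (𝓞 K) = v := HeightOneSpectrum.ext hP.over.symm
  have hr := not_ram_even ψ x h hx hgen v h2 hn
  have hbot : P.asIdeal.inertia (CG K E) = ⊥ := by
    rw [eq_bot_iff]
    intro γ hγ
    rw [Subgroup.mem_bot]
    obtain ⟨g, rfl⟩ := (toCG K E).surjective γ
    have hin : Inert P g := by
      intro z
      exact (P.valuation_lt_one_iff_mem (K := E) _).2 (hγ z)
    have h1 : ψ g = 1 := by
      by_contra hne
      exact hr ⟨P, g, hPv, hin, hne⟩
    have h3 : g = 1 := hψ (by rw [h1, map_one])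
    rw [h3, map_one]
  have h1 := Ideal.card_inertia_eq_ramificationIdxIn (G := CG K E) v.asIdeal P.asIdeal
  rw [hbot, Subgroup.card_bot,
    Ideal.ramificationIdxIn_eq_ramificationIdx v.asIdeal P.asIdeal (CG K E)] at h1
  exact h1.symm

theorem inf_unram_of (ψ : (E ≃ₐ[K] E) →* ℂˣ) (hψ : Function.Injective ψ)
    (hr : ∀ φ : K →+* ℝ, ¬ RamR ψ φ) (w : InfinitePlace E) : w.IsUnramified K := by
  have hmk : w = InfinitePlace.mk w.embedding := (InfinitePlace.mk_embedding w).symm
  rw [hmk, InfinitePlace.isUnramified_mk_iff_forall_isConj]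
  intro σ hσ
  set φ : E →+* ℂ := w.embedding with hφ
  have hσφ : ∀ z : E, (starRingEnd ℂ) (φ z) = φ (σ z) := fun z => RingHom.congr_fun hσ z
  have hreal : ComplexEmbedding.IsReal (φ.comp (algebraMap K E)) := by
    rw [ComplexEmbedding.isReal_iff]
    ext x
    rw [ComplexEmbedding.conjugate_coe_eq, RingHom.comp_apply, hσφ, AlgEquiv.commutes]
  by_contra hne
  exact hr hreal.embedding ⟨φ, σ, fun x => (hreal.coe_embedding_apply x).symm,
    fun x => (hσφ x).symm, fun h1 => hne (hψ (by rw [h1, map_one]))⟩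

theorem everywhere (ψ : (E ≃ₐ[K] E) →* ℂˣ) (hψ : Function.Injective ψ) (z : Kˣ) (e : E)
    (he : algebraMap K E (z : K) = e ^ 2) (hgen : ∀ g : E ≃ₐ[K] E, g e = e → g = 1)
    (R : HeightOneSpectrum (𝓞 K) → Prop) (h1 : ∀ v, R v → LocSq v z)
    (h2 : ∀ v : HeightOneSpectrum (𝓞 K), ¬ R v → (2 : 𝓞 K) ∈ v.asIdeal → NearSq v z)
    (h3 : ∀ v, ¬ R v → Even (prin z v)) (h4 : ∀ φ : K →+* ℝ, 0 < φ (z : K)) :
    UnramifiedEverywhere K E ∧ ∀ v, R v → TotallySplit K E (Sum.inr v) := by
  have hgen' : ∀ γ : CG K E, γ • e = e → γ = 1 := fun γ hγ => hgen γ hγ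
  refine ⟨⟨fun v => ?_, fun w => ?_⟩, fun v hv => ?_⟩
  · by_cases hv : R v
    · exact unram_of_nearSq (G := CG K E) v z e he hgen' (h1 v hv).near
    · by_cases hv2 : (2 : 𝓞 K) ∈ v.asIdeal
      · exact unram_of_nearSq (G := CG K E) v z e he hgen' (h2 v hv hv2)
      · exact unram_of_even ψ hψ z e he hgen v hv2 (h3 v hv)
  · exact inf_unram_of ψ hψ (fun φ => ramR_pos ψ z e he hgen φ (h4 φ)) w
  · rw [Pool.Agent.H181.ST.spl K E (CG K E) (Sum.inr v)]
    rintro (w | w) hw γ hγ
    · exact hw.elim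
    · have hwv : w.under (𝓞 K) = v := HeightOneSpectrum.ext (Ideal.LiesOver.over (P := w.asIdeal)
        (self := hw)).symm
      exact hgen' γ (fin_fix he (by rw [hwv]; exact h1 v hv) hγ)

end

/-- the square root of an element which is a square at some places and almost everywhere -/
theorem exists_root {K : Type} [Field K] [NumberField K] (z : Kˣ)
    (R : HeightOneSpectrum (𝓞 K) → Prop) (h1 : ∀ v, R v → LocSq v z)
    (h2 : ∀ v : HeightOneSpectrum (𝓞 K), ¬ R v → (2 : 𝓞 K) ∈ v.asIdeal → NearSq v z)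
    (h3 : ∀ v, ¬ R v → Even (prin z v)) (h4 : ∀ φ : K →+* ℝ, 0 < φ (z : K)) :
    ∃ (E : Type) (_ : Field E) (_ : NumberField E) (_ : Algebra K E) (_ : IsAbelianGalois K E)
      (e : E), algebraMap K E (z : K) = e ^ 2 ∧ UnramifiedEverywhere K E ∧
      ∀ v, R v → TotallySplit K E (Sum.inr v) := by
  by_cases hs : IsSquare (z : K)
  · obtain ⟨k, hk⟩ := hs
    have hsub : Subsingleton (K ≃ₐ[K] K) := by
      refine ⟨fun a b => ?_⟩
      ext x
      exact (a.commutes x).trans (b.commutes x).symm
    have hab : IsAbelianGalois K K := { }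
    have he : algebraMap K K (z : K) = k ^ 2 := by
      rw [pow_two, ← hk]
      rfl
    obtain ⟨h5, h6⟩ := everywhere (E := K) 1 (fun a b _ => Subsingleton.elim a b) z k he
      (fun g _ => Subsingleton.elim g 1) R h1 h2 h3 h4
    exact ⟨K, inferInstance, inferInstance, inferInstance, hab, k, he, h5, h6⟩
  · obtain ⟨E, _, _, _, _, e, ψ, he, hgen, hψ, -⟩ := exists_quad _ hs
    obtain ⟨h5, h6⟩ := everywhere ψ hψ z e he hgen R h1 h2 h3 h4
    exact ⟨E, inferInstance, inferInstance, inferInstance, inferInstance, e, he, h5, h6⟩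

section
variable {K H : Type} [Field K] [NumberField K] [Field H] [NumberField H] [Algebra K H]
  [IsAbelianGalois K H]

/-- the bound for the decomposition groups -/
theorem card_le_max (D : RubinData K H (CG K H)) (hG : ∀ g : CG K H, g * g = 1)
    (hx : NotMaximal K H) (hsp : ∀ φ : K →+* ℝ, ¬ SplitR H φ)
    (hsum : Module.finrank ℚ K ≤ 2 + Nat.card (RC K H)) : Nat.card (Sg D) ≤ 2 ^ sc D := by
  classical
  obtain ⟨Λ⟩ := all_lam K H (CG K H) D hG
  obtain ⟨x, hx0, hxe, hxE⟩ := hx
  let T2 : Finset (HeightOneSpectrum (𝓞 K)) := (two_finite (K := K)).toFinset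
  have hT2 : ∀ v, v ∈ T2 ↔ (2 : 𝓞 K) ∈ v.asIdeal := fun v => Set.Finite.mem_toFinset _
  set x' : Kˣ := Units.mk0 x hx0 with hx'
  have hxe' : ∀ v, Unramified H v → Even (prin x' v) := fun v hv =>
    even_of_evenVal (hxe v ((unram_iff v).2 hv))
  let f : Bool → Kˣ := fun b => if b then x' else 1
  have hf : ∀ s v, Unramified H v → Even (prin (f s) v) := by
    rintro (_ | _) v hv
    · change Even (prin (1 : Kˣ) v)
      rw [prin_one, Finsupp.zero_apply]
      exact Even.zero
    · exact hxe' v hv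
  have h1 := isoC D hG Λ (T2.filter fun v => Unramified H v) (fun v => by
    rw [Finset.mem_filter, hT2]) f hf (by
      intro s s' y h hy hl hn hp
      by_contra hne
      obtain ⟨E, _, _, _, _, e, he, hun, hspl⟩ := exists_root ((f s)⁻¹ * f s' * y)
        (fun v => ¬ Unramified H v) hl (fun v hv hv2 => hn v hv2 (not_not.1 hv)) (fun v hv => by
          rw [prin_mul, Finsupp.add_apply, prin_mul, Finsupp.add_apply, prin_inv,
            Finsupp.neg_apply]
          exact ((hf s v (not_not.1 hv)).neg.add (hf s' v (not_not.1 hv))).add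
            (even_sq hy v (not_not.1 hv))) (fun φ => hp φ (hsp φ))
      have hy' : (h : H) ^ 2 = algebraMap K H (y : K) := (congrArg Units.val hy).symm
      have hspl' : ∀ v : HeightOneSpectrum (𝓞 K), ¬ Unram K H v → TotallySplit K E (Sum.inr v) :=
        fun v hv => hspl v (fun h => hv ((unram_iff v).2 h))
      have hcon := hxE E hun hspl' (y : K) (h : H)
      rcases s with _ | _ <;> rcases s' with _ | _
      · exact hne rfl
      · have e1 : (((f false)⁻¹ * f true * y : Kˣ) : K) = x * (y : K) := by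
          change (((1 : Kˣ)⁻¹ * x' * y : Kˣ) : K) = _
          rw [inv_one, one_mul, Units.val_mul]
          rfl
        rw [e1] at he
        exact hcon e y.ne_zero hy' he.symm
      · have e1 : x * (y : K) = (((f true)⁻¹ * f false * y : Kˣ) : K) * x ^ 2 := by
          change _ = (((x' : Kˣ)⁻¹ * 1 * y : Kˣ) : K) * x ^ 2
          rw [mul_one, Units.val_mul, Units.val_inv_eq_inv_val]
          change x * (y : K) = x⁻¹ * (y : K) * x ^ 2
          field_simp
        refine hcon (e * algebraMap K E x) y.ne_zero hy' ?_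
        rw [e1, map_mul, he, mul_pow, map_pow]
      · exact hne rfl)
  rw [Nat.card_eq_fintype_card, Fintype.card_bool] at h1
  have h2 : 2 ^ 1 * Nat.card (Sg D) ^ 2 ≤ (letI := Λ.fin; ∏ i, lb K (Λ.u i)) *
      2 ^ ∑ v ∈ T2.filter (fun v => Unramified H v), deg2 v := by
    rw [show (2 : ℕ) ^ 1 = 2 from rfl]
    exact h1
  refine wild3 D hG Λ 1 _ h2 (T2.filter fun v => ¬ Unramified H v)
    (fun v hv hr => by
      rw [Finset.mem_filter, hT2]
      exact ⟨hv, hr⟩) ?_
  rw [Finset.sum_filter_add_sum_filter_not]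
  exact (sum_deg_le fun v hv => (hT2 v).1 hv).trans hsum

/-- **The rank one abelian Stark conjecture in Tate's form** for groups of exponent two -/
theorem stark_d (h2 : ∀ g : Gal(H/K), g * g = 1) (S : Finset (Pool.Agent.N598.ST.Place K))
    (p : Pool.Agent.N598.ST.Place K) (hD : Data K H S p)
    (hnt : 3 ≤ S.card ∨ ∃ q ∈ S, ¬ TotallySplit K H q)
    (h : InfinitePlace.nrComplexPlaces K ≠ 1 ∨
      (∃ v : HeightOneSpectrum (𝓞 K), (2 : 𝓞 K) ∈ v.asIdeal ∧ Unram K H v) ∨
      Nat.card (SigmaG K H S) ≤ 2 ^ (S.card - 1) ∨ NotMaximal K H) :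
    Stark K H S p := by
  classical
  rcases h with h | h | h | h
  · exact Pool.Agent.STk.stark_exp2 h2 S p hD hnt (Or.inl h)
  · exact Pool.Agent.STk.stark_exp2 h2 S p hD hnt (Or.inr (Or.inl h))
  · exact Pool.Agent.STk.stark_exp2 h2 S p hD hnt (Or.inr (Or.inr h))
  by_cases hc : InfinitePlace.nrComplexPlaces K = 1
  swap
  · exact Pool.Agent.STk.stark_exp2 h2 S p hD hnt (Or.inl hc)
  by_cases hq : ∃ q ∈ S, q ≠ p ∧ TotallySplit K H q
  · exact Pool.Agent.STk.rank_one h2 S p hD hnt (Or.inl hq)
  push Not at hq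
  obtain ⟨v₀, h0, h1⟩ := Pool.Agent.N820.RS.exists_complex hc
  have hp : Sum.inl v₀ = p := by
    by_contra h5
    exact hq _ (hD.arch _) h5 (Pool.Agent.N820.RS.split_complex _ h0)
  have h4 : ∀ v : InfinitePlace K, v.IsReal →
      v.IsReal ∧ ∀ w : InfinitePlace H, w.comap (algebraMap K H) = v → w.IsComplex := by
    intro v hv
    refine (split_or v).resolve_left (hq _ (hD.arch v) ?_)
    intro h5
    have h6 : v = v₀ := Sum.inl_injective (h5.trans hp.symm)
    rw [h6] at hv
    exact (InfinitePlace.not_isReal_iff_isComplex.2 h0) hv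
  refine Pool.Agent.STk.st K H (CG K H) (toCG K H) (toCG_smul K H) h2 S p hD hnt
    fun D hDS hDr => ?_
  refine Pool.Agent.BT9.pop_bt Pool.Agent.BT9.all D h2 ?_ D subset_rfl
  refine card_le_max D h2 h ?_ ?_
  · rintro φ ⟨χ, hχ⟩
    have h5 := (h4 _ (isReal_mk φ)).2 (InfinitePlace.mk ((algebraMap ℝ ℂ).comp χ)) (by
      rw [InfinitePlace.comap_mk, ← hχ]
      rfl)
    exact (InfinitePlace.not_isReal_iff_isComplex.2 h5) (isReal_mk χ)
  · have hfin : Finite (RC K H) := by unfold RC; infer_instance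
    have h5 : InfinitePlace.nrRealPlaces K ≤ Nat.card (RC K H) := by
      unfold InfinitePlace.nrRealPlaces
      rw [← Nat.card_eq_fintype_card]
      refine Nat.card_le_card_of_injective
        (fun v : {v : InfinitePlace K // v.IsReal} => (⟨v.1, h4 v.1 v.2⟩ : RC K H)) ?_
      intro a b hab
      exact Subtype.ext (congrArg (fun x : RC K H => x.1) hab)
    have h6 := InfinitePlace.card_add_two_mul_card_eq_rank K
    rw [hc] at h6
    omega

end

end Pool.Agent.H896.SG
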