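import Pool.Agent.H509.BT.RECD
import Pool.Agent.H509.BT.LSR

/-!
# The Artin symbol of a principal divisor in an extension which is unramified at all prime ideals
-/

set_option autoImplicit false
set_option linter.unusedSectionVars false
set_option linter.deprecated false

open NumberField IsDedekindDomain Filter Topology Module

noncomputable section

namespace Pool.Agent.H896.SG

open Pool.Agent.BT9
open Pool.Agent.Q92.AR (Dv prin Pr Ray nmD nu up sD puD Cong Pos frob IsFrobenius Unramified Ram art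
  prin_mul prin_one prin_inv)
open Pool.Agent.Q125.AR (art_eq_sum)

variable {F E : Type} [Field F] [NumberField F] [Field E] [NumberField E] [Algebra F E]
  [IsGalois F E]

/-- **the sign rule** -/
theorem art_ne (ψ : (E ≃ₐ[F] E) →* ℂˣ) (hψ : ∀ g, ψ g * ψ g = 1) (hfin : ∀ v, ¬ RamAt ψ v)
    (φ : F →+* ℝ) (hφ : RamR ψ φ) (x : Fˣ) (hx : φ (x : F) < 0)
    (hx' : ∀ φ', φ' ≠ φ → RamR ψ φ' → 0 < φ' (x : F)) : art ψ (prin x) ≠ 0 := by
  obtain ⟨N, hN, hRam, h⟩ := Pool.Agent.H389.BT.recd F E ψ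
  obtain ⟨z, hz, hz1, hz2, hz3⟩ := Pool.Agent.H996.BT.lsr Pool.Agent.H389.BT.recd F E ψ hψ φ hφ N hN
  intro h0
  apply hz3
  have h1 := h (x * z) (fun v hv => absurd hv (hfin v)) (fun φ' hφ' => by
    rw [Units.val_mul, map_mul]
    by_cases hne : φ' = φ
    · rw [hne]
      exact mul_pos_of_neg_of_neg hx hz1
    · exact mul_pos (hx' φ' hne hφ') (hz2 φ' hne))
  rw [prin_mul, map_add, h0, zero_add] at h1
  exact h1

/-- the symbol is trivial if all the local factors are -/
theorem art_zero (ψ : (E ≃ₐ[F] E) →* ℂˣ) (hψ : ∀ g, ψ g * ψ g = 1) (d : Dv F)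
    (h : ∀ v, Even (d v) ∨ ψ (frob E v) = 1) : art ψ d = 0 := by
  rw [art_eq_sum]
  refine Finset.sum_eq_zero fun v _ => ?_
  rcases h v with ⟨k, hk⟩ | hk
  · rw [hk, add_zsmul, ← zsmul_add, ← ofMul_mul, hψ, ofMul_one, smul_zero]
  · rw [hk, ofMul_one, smul_zero]

end Pool.Agent.H896.SG
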