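import Pool.Agent.H896.SG.RealQuad

/-!
# All forms of the hypothesis
-/

set_option autoImplicit false

open NumberField IsDedekindDomain

noncomputable section

namespace Pool.Agent.H896.SG

open Pool.Agent.BT9
open Pool.Agent.K3h30.RS

variable {F H G : Type} [Field F] [NumberField F] [Field H] [NumberField H] [Algebra F H]
  [CommGroup G] [Finite G] [MulSemiringAction G H] [IsGaloisGroup G F H]

open Classical in
/-- the forms of the hypothesis -/
theorem card_of_cases3 (D : RubinData F H G) (hG : ∀ g : G, g * g = 1)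
    (h : Nat.card (Subgroup.closure {γ : G | ∃ w : Place H,
          InS (D.S : Set (HeightOneSpectrum (𝓞 F))) w ∧ Fixes w γ}) ≤
        2 ^ (Fintype.card (InfinitePlace F) + D.S.card - D.r) ∨
      (∃ W : Finset (HeightOneSpectrum (𝓞 F)), (∀ v : HeightOneSpectrum (𝓞 F),
          (2 : 𝓞 F) ∈ v.asIdeal → ¬ Squarefree (v.asIdeal.map (algebraMap (𝓞 F) (𝓞 H))) → v ∈ W) ∧
        ∑ v ∈ W, deg2 v ≤ 1 + Nat.card {v : InfinitePlace F // v.IsReal ∧
          ∀ w : InfinitePlace H, w.comap (algebraMap F H) = v → w.IsComplex}) ∨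
      ((∀ v : InfinitePlace F, v.IsReal) ∧
        ((∀ χ χ' : H →+* ℝ, χ.comp (algebraMap F H) = χ'.comp (algebraMap F H)) ∨
        (∀ s : Set (F →+* ℝ), ∃ x : F, x ≠ 0 ∧ (∀ φ : F →+* ℝ, φ x < 0 ↔ φ ∈ s) ∧
          ∀ v : HeightOneSpectrum (𝓞 F), EvenVal v x) ∨
        (∀ χ : H →+* ℝ, ∃ x : F, χ (algebraMap F H x) < 0 ∧
          (∀ χ' : H →+* ℝ, χ'.comp (algebraMap F H) ≠ χ.comp (algebraMap F H) →
            0 < χ' (algebraMap F H x)) ∧
          ∀ v : HeightOneSpectrum (𝓞 F),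
            Squarefree (v.asIdeal.map (algebraMap (𝓞 F) (𝓞 H))) → EvenVal v x) ∨
        (Module.finrank ℚ F = 2 ∧ ∃ (a b : ℤ) (d : F), IsCoprime a b ∧
          (d ^ 2 = a ^ 2 + b ^ 2 ∨ d ^ 2 = a ^ 2 + 2 * b ^ 2) ∧
          d ∉ Set.range (algebraMap ℚ F))))) :
    Nat.card (Sg D) ≤ 2 ^ sc D := by
  rcases h with h | h | ⟨h1, h2 | h2 | h2 | ⟨h2, a, b, d, hab, hd, hdQ⟩⟩
  · exact Pool.Agent.BT9.card_of_cases D hG (Or.inl h)
  · exact Pool.Agent.BT9.card_of_cases D hG (Or.inr (Or.inl h))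
  · exact card_of_signs2 D hG h1 (Or.inl h2)
  · exact card_of_signs2 D hG h1 (Or.inr (Or.inl h2))
  · exact card_of_signs2 D hG h1 (Or.inr (Or.inr h2))
  · exact card_of_sums D hG h1 h2 hab hd hdQ

end Pool.Agent.H896.SG
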