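import Pool.Agent.H896.SG.Dual

/-!
# The hypothesis in terms of quadratic extensions of `F`
-/

set_option autoImplicit false

open NumberField IsDedekindDomain

noncomputable section

namespace Pool.Agent.H896.SG

open Pool.Agent.BT9
open Pool.Agent.Q92.AR (prin Unramified)
open Pool.Agent.K3h30.RS

theorem evenVal_of_even {F : Type} [Field F] [NumberField F] {v : HeightOneSpectrum (𝓞 F)}
    {x : Fˣ} (h : Even (prin x v)) : EvenVal v (x : F) := by
  obtain ⟨k, hk⟩ := h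
  obtain ⟨p, hp⟩ := v.valuation_exists_uniformizer F
  refine ⟨p ^ k, ?_⟩
  rw [Pool.Agent.Q125.AR.valuation_eq_exp, hk, map_zpow₀, hp, ← WithZero.exp_zsmul,
    ← WithZero.exp_nsmul, WithZero.exp_inj, nsmul_eq_mul, zsmul_eq_mul]
  push_cast
  ring

/-- Every quadratic extension `E / F` which is unramified at all prime ideals, in which the prime ideals
in `P` split and the real places in `R` stay real, has real places only over the real places of `F`. -/
def OnlyRealIf {F : Type} [Field F] [NumberField F] (P : Set (HeightOneSpectrum (𝓞 F)))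
    (R : Set (F →+* ℝ)) : Prop :=
  ∀ (E : Type) [Field E] [NumberField E] [Algebra F E], Module.finrank F E = 2 →
    (∀ v : HeightOneSpectrum (𝓞 F), Squarefree (v.asIdeal.map (algebraMap (𝓞 F) (𝓞 E)))) →
    (∀ v ∈ P, ¬ (v.asIdeal.map (algebraMap (𝓞 F) (𝓞 E))).IsPrime) →
    (∀ φ ∈ R, ∃ χ : E →+* ℝ, χ.comp (algebraMap F E) = φ) →
    ∀ φ : F →+* ℝ, ∃ χ : E →+* ℝ, χ.comp (algebraMap F E) = φ

variable {F H G : Type} [Field F] [NumberField F] [Field H] [NumberField H] [Algebra F H]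
  [CommGroup G] [Finite G] [MulSemiringAction G H] [IsGaloisGroup G F H]

theorem card_of_real (D : RubinData F H G) (hG : ∀ g : G, g * g = 1)
    (hF : ∀ v : InfinitePlace F, v.IsReal)
    (hd : OnlyRealIf {v : HeightOneSpectrum (𝓞 F) |
      ¬ Squarefree (v.asIdeal.map (algebraMap (𝓞 F) (𝓞 H)))}
      {φ : F →+* ℝ | ¬ ∃ χ : H →+* ℝ, χ.comp (algebraMap F H) = φ}) :
    Nat.card (Sg D) ≤ 2 ^ sc D := by
  refine card_of_signs D hG hF (Or.inr (Or.inr fun χ => ?_))
  obtain ⟨x, h1, h2, h3⟩ := exists_sign (F := F) (H := H) hd (χ.comp (algebraMap F H)) ⟨χ, rfl⟩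
  exact ⟨x, h1, fun χ' hne => h2 _ hne ⟨χ', rfl⟩, fun v hv =>
    evenVal_of_even (h3 v (Pool.Agent.H509.Rec.unr_of_squarefree hv))⟩

theorem card_of_two (D : RubinData F H G) (hG : ∀ g : G, g * g = 1)
    (hF : ∀ v : InfinitePlace F, v.IsReal)
    (h2 : (∃ v : HeightOneSpectrum (𝓞 F), ∀ w : HeightOneSpectrum (𝓞 F),
      (2 : 𝓞 F) ∈ w.asIdeal → w = v) ∨ Module.finrank ℚ F = 2)
    (hd : OnlyRealIf {v : HeightOneSpectrum (𝓞 F) | (2 : 𝓞 F) ∈ v.asIdeal} ∅) :
    Nat.card (Sg D) ≤ 2 ^ sc D := by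
  classical
  by_cases h : ∃ v : HeightOneSpectrum (𝓞 F), (2 : 𝓞 F) ∈ v.asIdeal ∧ Unramified H v
  · obtain ⟨v, hv, hu⟩ := h
    rcases h2 with ⟨v', hv'⟩ | h2
    · refine Pool.Agent.BT9.card_of_wild D hG ⟨∅, fun w hw hw' => ?_, ?_⟩
      · exfalso
        rw [hv' w hw, ← hv' v hv] at hw'
        exact hw' (Pool.Agent.H788.BT.squarefree_of_unr hu)
      · rw [Finset.sum_empty]
        exact Nat.zero_le _
    · refine Pool.Agent.BT9.card_of_wild D hG
        ⟨(Pool.Agent.STk.two_finite (K := F)).toFinset.erase v, fun w hw hw' => ?_, ?_⟩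
      · rw [Finset.mem_erase]
        refine ⟨?_, (Set.Finite.mem_toFinset _).2 hw⟩
        rintro rfl
        exact hw' (Pool.Agent.H788.BT.squarefree_of_unr hu)
      · have h1 : ∑ w ∈ (Pool.Agent.STk.two_finite (K := F)).toFinset, deg2 w ≤
            Module.finrank ℚ F :=
          Pool.Agent.STk.sum_deg_le fun v hv =>
            (Set.Finite.mem_toFinset Pool.Agent.STk.two_finite).1 hv
        rw [← Finset.add_sum_erase _ deg2
          ((Set.Finite.mem_toFinset (Pool.Agent.STk.two_finite (K := F))).2 hv)] at h1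
        have h3 := Pool.Agent.STk.deg2_pos hv
        omega
  · push Not at h
    refine card_of_real D hG hF fun E _ _ _ h1 h3 h4 _ => ?_
    exact hd E h1 h3 (fun v hv => h4 v fun hs => h v hv (Pool.Agent.H509.Rec.unr_of_squarefree hs))
      (fun φ hφ => absurd hφ (Set.notMem_empty φ))

open Classical in
/-- the forms of the hypothesis -/
theorem card_of_cases5 (D : RubinData F H G) (hG : ∀ g : G, g * g = 1)
    (h : Nat.card (Subgroup.closure {γ : G | ∃ w : Place H,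
          InS (D.S : Set (HeightOneSpectrum (𝓞 F))) w ∧ Fixes w γ}) ≤
        2 ^ (Fintype.card (InfinitePlace F) + D.S.card - D.r) ∨
      (∃ W : Finset (HeightOneSpectrum (𝓞 F)), (∀ v : HeightOneSpectrum (𝓞 F),
          (2 : 𝓞 F) ∈ v.asIdeal → ¬ Squarefree (v.asIdeal.map (algebraMap (𝓞 F) (𝓞 H))) → v ∈ W) ∧
        ∑ v ∈ W, deg2 v ≤ 1 + Nat.card {v : InfinitePlace F // v.IsReal ∧
          ∀ w : InfinitePlace H, w.comap (algebraMap F H) = v → w.IsComplex}) ∨
      ((∀ v : InfinitePlace F, v.IsReal) ∧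
        (OnlyRealIf {v : HeightOneSpectrum (𝓞 F) |
            ¬ Squarefree (v.asIdeal.map (algebraMap (𝓞 F) (𝓞 H)))}
          {φ : F →+* ℝ | ¬ ∃ χ : H →+* ℝ, χ.comp (algebraMap F H) = φ} ∨
        (((∃ v : HeightOneSpectrum (𝓞 F), ∀ w : HeightOneSpectrum (𝓞 F),
            (2 : 𝓞 F) ∈ w.asIdeal → w = v) ∨ Module.finrank ℚ F = 2) ∧
          OnlyRealIf {v : HeightOneSpectrum (𝓞 F) | (2 : 𝓞 F) ∈ v.asIdeal} ∅) ∨
        (Module.finrank ℚ F = 2 ∧ ∃ (a b : ℤ) (d : F), IsCoprime a b ∧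
          (d ^ 2 = a ^ 2 + b ^ 2 ∨ d ^ 2 = a ^ 2 + 2 * b ^ 2) ∧
          d ∉ Set.range (algebraMap ℚ F))))) :
    Nat.card (Sg D) ≤ 2 ^ sc D := by
  rcases h with h | h | ⟨h1, h2 | ⟨h2, h3⟩ | ⟨h2, a, b, d, hab, hd, hdQ⟩⟩
  · exact Pool.Agent.BT9.card_of_cases D hG (Or.inl h)
  · exact Pool.Agent.BT9.card_of_cases D hG (Or.inr (Or.inl h))
  · exact card_of_real D hG h1 h2
  · exact card_of_two D hG h1 h2 h3
  · exact card_of_sums D hG h1 h2 hab hd hdQ

end Pool.Agent.H896.SG
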