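import Pool.Agent.H896.SG.Max2

/-!
# All the forms of the hypothesis
-/

set_option autoImplicit false

open NumberField IsDedekindDomain

noncomputable section

namespace Pool.Agent.H896.SG

open Pool.Agent.BT9
open Pool.Agent.K3h30.RS

section
variable (F H : Type) [Field F] [NumberField F] [Field H] [NumberField H] [Algebra F H]

/-- the prime ideals of `F` which are ramified in `H` -/
def ramPrimes : Set (HeightOneSpectrum (𝓞 F)) :=
  {v | ¬ Squarefree (v.asIdeal.map (algebraMap (𝓞 F) (𝓞 H)))}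

/-- the real embeddings of `F` which do not extend to real embeddings of `H` -/
def ramReal : Set (F →+* ℝ) := {φ | ¬ ∃ χ : H →+* ℝ, χ.comp (algebraMap F H) = φ}

end

/-- `E / F` is unramified at all prime ideals, the prime ideals in `P` split in `E`, and the real
embeddings in `R` extend to real embeddings of `E`. -/
def SplitAt {F : Type} [Field F] [NumberField F] (P : Set (HeightOneSpectrum (𝓞 F)))
    (R : Set (F →+* ℝ)) (E : Type) [Field E] [NumberField E] [Algebra F E] : Prop :=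
  (∀ v : HeightOneSpectrum (𝓞 F), Squarefree (v.asIdeal.map (algebraMap (𝓞 F) (𝓞 E)))) ∧
    (∀ v ∈ P, ¬ (v.asIdeal.map (algebraMap (𝓞 F) (𝓞 E))).IsPrime) ∧
    ∀ φ ∈ R, ∃ χ : E →+* ℝ, χ.comp (algebraMap F E) = φ

/-- the quadratic extensions as in `SplitAt` are totally real -/
def OnlyRealAt {F : Type} [Field F] [NumberField F] (P : Set (HeightOneSpectrum (𝓞 F)))
    (R : Set (F →+* ℝ)) : Prop :=
  ∀ (E : Type) [Field E] [NumberField E] [Algebra F E], Module.finrank F E = 2 → SplitAt P R E →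
    ∀ φ : F →+* ℝ, ∃ χ : E →+* ℝ, χ.comp (algebraMap F E) = φ

/-- `H` is not maximal -/
def NotMaximalIn (F H : Type) [Field F] [NumberField F] [Field H] [NumberField H] [Algebra F H] :
    Prop :=
  ∃ x : F, x ≠ 0 ∧
    (∀ v : HeightOneSpectrum (𝓞 F), Squarefree (v.asIdeal.map (algebraMap (𝓞 F) (𝓞 H))) →
      EvenVal v x) ∧
    ∀ y : F, y ≠ 0 → IsSquare (algebraMap F H y) → ¬ IsSquare (x * y) ∧
      ∀ (E : Type) [Field E] [NumberField E] [Algebra F E], Module.finrank F E = 2 →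
        SplitAt (ramPrimes F H) (ramReal F H) E → ¬ IsSquare (algebraMap F E (x * y))

variable {F H G : Type} [Field F] [NumberField F] [Field H] [NumberField H] [Algebra F H]
  [CommGroup G] [Finite G] [MulSemiringAction G H] [IsGaloisGroup G F H]

open Classical in
/-- the forms of the hypothesis -/
theorem card_of_cases6 (D : RubinData F H G) (hG : ∀ g : G, g * g = 1)
    (h : Nat.card (Subgroup.closure {γ : G | ∃ w : Place H,
          InS (D.S : Set (HeightOneSpectrum (𝓞 F))) w ∧ Fixes w γ}) ≤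
        2 ^ (Fintype.card (InfinitePlace F) + D.S.card - D.r) ∨
      (∃ W : Finset (HeightOneSpectrum (𝓞 F)), (∀ v : HeightOneSpectrum (𝓞 F),
          (2 : 𝓞 F) ∈ v.asIdeal → v ∈ ramPrimes F H → v ∈ W) ∧
        ∑ v ∈ W, deg2 v ≤ 1 + Nat.card {v : InfinitePlace F // v.IsReal ∧
          ∀ w : InfinitePlace H, w.comap (algebraMap F H) = v → w.IsComplex}) ∨
      (Module.finrank ℚ F ≤ 2 + Nat.card {v : InfinitePlace F // v.IsReal ∧
          ∀ w : InfinitePlace H, w.comap (algebraMap F H) = v → w.IsComplex} ∧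
        NotMaximalIn F H) ∨
      ((∀ v : InfinitePlace F, v.IsReal) ∧
        (OnlyRealAt (ramPrimes F H) (ramReal F H) ∨
        (((∃ v : HeightOneSpectrum (𝓞 F), ∀ w : HeightOneSpectrum (𝓞 F),
            (2 : 𝓞 F) ∈ w.asIdeal → w = v) ∨ Module.finrank ℚ F = 2) ∧
          OnlyRealAt {v : HeightOneSpectrum (𝓞 F) | (2 : 𝓞 F) ∈ v.asIdeal} ∅) ∨
        (Module.finrank ℚ F = 2 ∧ ∃ (a b : ℤ) (d : F), IsCoprime a b ∧
          (d ^ 2 = a ^ 2 + b ^ 2 ∨ d ^ 2 = a ^ 2 + 2 * b ^ 2) ∧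
          d ∉ Set.range (algebraMap ℚ F))))) :
    Nat.card (Sg D) ≤ 2 ^ sc D := by
  rcases h with h | h | ⟨h1, h2⟩ | ⟨h1, h2 | ⟨h2, h3⟩ | ⟨h2, a, b, d, hab, hd, hdQ⟩⟩
  · exact Pool.Agent.BT9.card_of_cases D hG (Or.inl h)
  · exact Pool.Agent.BT9.card_of_cases D hG (Or.inr (Or.inl h))
  · exact card_of_notMax D hG h2 h1
  · exact card_of_real D hG h1 fun E _ _ _ h3 h4 h5 h6 => h2 E h3 ⟨h4, h5, h6⟩
  · exact card_of_two D hG h1 h2 fun E _ _ _ h4 h5 h6 h7 => h3 E h4 ⟨h5, h6, h7⟩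
  · exact card_of_sums D hG h1 h2 hab hd hdQ

end Pool.Agent.H896.SG
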