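import Pool.Agent.H896.SG.OneTwo
import Pool.Graph.R_pool_sql_team_seeded_3997aac3.Q20.EX.All
import Pool.Graph.R_pool_sql_team_seeded_3997aac3.Q53.EX.UnrE
import Pool.Graph.R_pool_sql_team_seeded_3997aac3.Q111.EX.Fin
import Pool.Graph.R_pool_sql_team_seeded_3997aac3.Q111.EX.Split
import Pool.Graph.R_pool_sql_team_seeded_3997aac3.Q285.EX.Ncg

/-!
# The signature condition in terms of quadratic extensions

Suppose that every quadratic extension of `F` which is unramified at all prime ideals and at the real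
places which become complex in `H`, and in which the prime ideals which ramify in `H` split, has real
places only. Then for each real place `φ` which splits in `H` there is an `x`, with even valuations at the
prime ideals which are unramified in `H`, which is negative at `φ` and positive at the other real places
which split in `H`. (Existence theorem of class field theory.)
-/

set_option autoImplicit false
set_option linter.unusedSectionVars false
set_option linter.deprecated false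

open NumberField IsDedekindDomain Module

noncomputable section

namespace Pool.Agent.H896.SG

open Pool.Agent.BT9
open Pool.Agent.Q92.AR (Dv prin Pr Ray nmD nu up sD puD Cong Pos frob IsFrobenius Unramified Ram art
  prin_mul prin_one prin_inv prin_div mem_Pr val_eq_one art_single frob_spec)
open Pool.Agent.Q20.EX (CongAt Split Inert)
open Pool.Agent.Q125.AR (prin_eq_zero_of_valuation art_eq_sum chi_frob finite_dvd)
open Pool.Agent.Q182.MZ (apxAt prin_eq_of_near)

/-- the map `ℤ / 2 → ℂˣ`, `1 ↦ -1` -/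
def sgnHom : ZMod 2 →+ Additive ℂˣ :=
  ZMod.lift 2 ⟨(zmultiplesHom (Additive ℂˣ)) (Additive.ofMul (-1)), by
    rw [zmultiplesHom_apply]
    change (2 : ℤ) • Additive.ofMul (-1 : ℂˣ) = 0
    rw [two_zsmul, ← ofMul_mul]
    simp⟩

theorem sgnHom_one : sgnHom 1 = Additive.ofMul (-1 : ℂˣ) := by
  have h := ZMod.lift_coe 2 ⟨(zmultiplesHom (Additive ℂˣ)) (Additive.ofMul (-1 : ℂˣ)), by
    rw [zmultiplesHom_apply]
    change (2 : ℤ) • Additive.ofMul (-1 : ℂˣ) = 0
    rw [two_zsmul, ← ofMul_mul]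
    simp⟩ 1
  rw [Int.cast_one] at h
  change sgnHom 1 = _ at h
  rw [h]
  change (1 : ℤ) • Additive.ofMul (-1 : ℂˣ) = _
  rw [one_zsmul]

theorem sgnHom_ne {a : ZMod 2} (ha : a ≠ 0) : sgnHom a ≠ 0 := by
  have h : a = 1 := by
    revert ha
    revert a
    decide
  rw [h, sgnHom_one]
  intro h1
  have h2 : (-1 : ℂˣ) = 1 := Additive.ofMul.injective h1
  have h3 := congrArg Units.val h2
  norm_num at h3

theorem exists_char {A : Type} [AddCommGroup A] (B : AddSubgroup A) (hB : ∀ a : A, a + a ∈ B) (x : A)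
    (hx : x ∉ B) : ∃ χ : A →+ Additive ℂˣ, (∀ b ∈ B, χ b = 0) ∧ χ x ≠ 0 ∧ ∀ a, χ a + χ a = 0 := by
  have h2 : ∀ q : A ⧸ B, 2 • q = 0 := by
    intro q
    induction q using QuotientAddGroup.induction_on with
    | H a =>
      rw [two_nsmul, ← QuotientAddGroup.mk_add]
      exact (QuotientAddGroup.eq_zero_iff _).2 (hB a)
  let _ : Module (ZMod 2) (A ⧸ B) := AddCommGroup.zmodModule h2
  have hx' : (QuotientAddGroup.mk x : A ⧸ B) ≠ 0 := fun h => hx ((QuotientAddGroup.eq_zero_iff _).1 h)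
  have h3 : ∃ f : Module.Dual (ZMod 2) (A ⧸ B), f (QuotientAddGroup.mk x) ≠ 0 := by
    by_contra hcon
    push Not at hcon
    exact hx' ((Module.forall_dual_apply_eq_zero_iff (ZMod 2) _).1 hcon)
  obtain ⟨f, hf⟩ := h3
  refine ⟨sgnHom.comp (f.toAddMonoidHom.comp (QuotientAddGroup.mk' B)), fun b hb => ?_, ?_, fun a => ?_⟩
  · have h4 : (QuotientAddGroup.mk' B b : A ⧸ B) = 0 := (QuotientAddGroup.eq_zero_iff _).2 hb
    rw [AddMonoidHom.comp_apply, AddMonoidHom.comp_apply, h4, map_zero, map_zero]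
  · exact sgnHom_ne hf
  · rw [← map_add]
    have h4 : (QuotientAddGroup.mk' B (a + a) : A ⧸ B) = 0 := (QuotientAddGroup.eq_zero_iff _).2 (hB a)
    rw [AddMonoidHom.comp_apply, AddMonoidHom.comp_apply, h4, map_zero, map_zero]

variable {F : Type} [Field F] [NumberField F]

/-- no prime ideal which splits completely generates a prime ideal -/
theorem not_prime_of_split {E : Type} [Field E] [NumberField E] [Algebra F E] [IsGalois F E]
    (h2 : Module.finrank F E = 2) {v : HeightOneSpectrum (𝓞 F)} (hv : Split E v) :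
    ¬ (v.asIdeal.map (algebraMap (𝓞 F) (𝓞 E))).IsPrime := by
  intro hp
  have hne : v.asIdeal.map (algebraMap (𝓞 F) (𝓞 E)) ≠ ⊥ := by
    intro h
    exact v.ne_bot ((Ideal.map_eq_bot_iff_of_injective
      (FaithfulSMul.algebraMap_injective (𝓞 F) (𝓞 E))).1 h)
  let w : HeightOneSpectrum (𝓞 E) := ⟨_, hp, hne⟩
  have hle : v.asIdeal ≤ w.asIdeal.under (𝓞 F) := Ideal.le_comap_map
  have hw : w.under (𝓞 F) = v := by
    apply HeightOneSpectrum.ext
    have hmax : v.asIdeal.IsMaximal := v.isMaximal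
    have hpr : (w.asIdeal.under (𝓞 F)).IsPrime := inferInstance
    exact (hmax.eq_of_le hpr.ne_top hle).symm
  have hact : ∀ g : E ≃ₐ[F] E, Pool.Agent.TeamU.act g w = w := by
    intro g
    apply HeightOneSpectrum.ext
    have h1 : w.asIdeal ≤ (Pool.Agent.TeamU.act g w).asIdeal := by
      refine Ideal.map_le_iff_le_comap.2 fun a ha => ?_
      rw [Ideal.mem_comap, Pool.Agent.TeamU.mem_act]
      have h2 : (RingOfIntegers.mapRingEquiv g.toRingEquiv).symm (algebraMap (𝓞 F) (𝓞 E) a) =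
          algebraMap (𝓞 F) (𝓞 E) a := by
        rw [RingEquiv.symm_apply_eq]
        apply RingOfIntegers.ext
        exact (g.commutes (a : F)).symm
      rw [h2]
      exact Ideal.mem_map_of_mem _ ha
    exact (w.isMaximal.eq_of_le (Pool.Agent.TeamU.act g w).isPrime.ne_top h1).symm
  have h1 : ∀ g : E ≃ₐ[F] E, g = 1 := fun g => hv w hw g (hact g)
  have h3 : Nat.card (E ≃ₐ[F] E) = 2 := by rw [IsGalois.card_aut_eq_finrank, h2]
  obtain ⟨a, b, hab, -⟩ := Nat.card_eq_two_iff.1 h3
  exact hab ((h1 a).trans (h1 b).symm)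

variable {H : Type} [Field H] [NumberField H] [Algebra F H]

/-- every quadratic extension of `F` which is unramified at all prime ideals and at the real places which
do not split in `H`, and in which the prime ideals which ramify in `H` split, is real -/
def OnlyReal (F H : Type) [Field F] [NumberField F] [Field H] [NumberField H] [Algebra F H] : Prop :=
  ∀ (E : Type) [Field E] [NumberField E] [Algebra F E], Module.finrank F E = 2 →
    (∀ v : HeightOneSpectrum (𝓞 F), Squarefree (v.asIdeal.map (algebraMap (𝓞 F) (𝓞 E)))) →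
    (∀ v : HeightOneSpectrum (𝓞 F), ¬ Squarefree (v.asIdeal.map (algebraMap (𝓞 F) (𝓞 H))) →
      ¬ (v.asIdeal.map (algebraMap (𝓞 F) (𝓞 E))).IsPrime) →
    (∀ φ : F →+* ℝ, (¬ ∃ χ : H →+* ℝ, χ.comp (algebraMap F H) = φ) →
      ∃ χ : E →+* ℝ, χ.comp (algebraMap F E) = φ) →
    ∀ φ : F →+* ℝ, ∃ χ : E →+* ℝ, χ.comp (algebraMap F E) = φ

theorem exists_sign (hd : OnlyReal F H) (φ₀ : F →+* ℝ) (h0 : SplitR H φ₀) :
    ∃ x : Fˣ, φ₀ (x : F) < 0 ∧ (∀ φ, φ ≠ φ₀ → SplitR H φ → 0 < φ (x : F)) ∧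
      ∀ v, Unramified H v → Even (prin x v) := by
  classical
  by_contra hcon
  push Not at hcon
  -- the subgroup
  let B : AddSubgroup (Dv F) :=
    { carrier := {D | ∃ y : Fˣ, (∀ φ, SplitR H φ → 0 < φ (y : F)) ∧
        ∀ v, Unramified H v → Even ((D + prin y) v)}
      zero_mem' := ⟨1, fun φ _ => by rw [Units.val_one, map_one]; exact one_pos, fun v _ => by
        rw [prin_one, add_zero]
        exact ⟨0, rfl⟩⟩
      add_mem' := by
        rintro D D' ⟨y, hy1, hy2⟩ ⟨y', hy1', hy2'⟩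
        refine ⟨y * y', fun φ hφ => ?_, fun v hv => ?_⟩
        · rw [Units.val_mul, map_mul]
          exact mul_pos (hy1 φ hφ) (hy1' φ hφ)
        · have e : (D + D' + prin (y * y')) v = (D + prin y) v + (D' + prin y') v := by
            rw [prin_mul]
            simp only [Finsupp.add_apply]
            omega
          rw [e]
          exact (hy2 v hv).add (hy2' v hv)
      neg_mem' := by
        rintro D ⟨y, hy1, hy2⟩
        refine ⟨y⁻¹, fun φ hφ => ?_, fun v hv => ?_⟩
        · rw [Units.val_inv_eq_inv_val, map_inv₀]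
          exact inv_pos.2 (hy1 φ hφ)
        · have e : (-D + prin y⁻¹) v = -((D + prin y) v) := by
            rw [prin_inv]
            simp only [Finsupp.add_apply, Finsupp.neg_apply]
            omega
          rw [e]
          exact (hy2 v hv).neg }
  have hB2 : ∀ D : Dv F, D + D ∈ B := fun D => ⟨1, fun φ _ => by
    rw [Units.val_one, map_one]; exact one_pos, fun v _ => by
    rw [prin_one, add_zero, Finsupp.add_apply]
    exact ⟨D v, rfl⟩⟩
  have hBq : ∀ (v : HeightOneSpectrum (𝓞 F)) (k : ℤ), ¬ Unramified H v → Finsupp.single v k ∈ B :=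
    fun v k hv => ⟨1, fun φ _ => by rw [Units.val_one, map_one]; exact one_pos, fun u hu => by
      have hne : v ≠ u := fun h => hv (h ▸ hu)
      rw [prin_one, add_zero, Finsupp.single_eq_of_ne' hne]
      exact ⟨0, rfl⟩⟩
  have hBp : ∀ y : Fˣ, (∀ φ, SplitR H φ → 0 < φ (y : F)) → prin y ∈ B := fun y hy => ⟨y⁻¹, fun φ hφ => by
    rw [Units.val_inv_eq_inv_val, map_inv₀]
    exact inv_pos.2 (hy φ hφ), fun v _ => by
    rw [prin_inv, add_neg_cancel]
    exact ⟨0, rfl⟩⟩
  have hBx : ∀ x : Fˣ, φ₀ (x : F) < 0 → (∀ φ, φ ≠ φ₀ → SplitR H φ → 0 < φ (x : F)) → prin x ∉ B := by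
    rintro x hx1 hx2 ⟨y, hy1, hy2⟩
    obtain ⟨v, hv, hv2⟩ := hcon (x * y) (by
      rw [Units.val_mul, map_mul]
      exact mul_neg_of_neg_of_pos hx1 (hy1 φ₀ h0)) (fun φ hne hφ => by
      rw [Units.val_mul, map_mul]
      exact mul_pos (hx2 φ hne hφ) (hy1 φ hφ))
    apply hv2
    rw [prin_mul]
    exact hy2 v hv
  obtain ⟨x₀, -, hx₀⟩ := Pool.Agent.Q84.AR.sgn F 1 one_ne_zero (fun φ => φ ≠ φ₀)
  have hneg : ∀ x : Fˣ, (∀ φ : F →+* ℝ, 0 < φ (x : F) ↔ φ ≠ φ₀) → φ₀ (x : F) < 0 := by
    intro x hx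
    have h1 : ¬ 0 < φ₀ (x : F) := fun h => (hx φ₀).1 h rfl
    exact lt_of_le_of_ne (not_lt.1 h1) ((map_ne_zero φ₀).2 x.ne_zero)
  obtain ⟨χ, hχB, hχx, hχ2⟩ := exists_char B hB2 (prin x₀)
    (hBx x₀ (hneg x₀ hx₀) fun φ hne _ => (hx₀ φ).2 hne)
  -- the existence theorem
  obtain ⟨M, _, _, _, _, ψ, N, hN, -, hRam, hart⟩ := Pool.Agent.Q20.EX.all_EXI F 1 χ one_ne_zero
    (fun x hx => hχB _ (hBp x fun φ _ => hx.2 φ))
  have hPr : ∀ x : Fˣ, Cong N (x : F) → prin x ∈ Pr F N := fun x hx v hv =>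
    prin_eq_zero_of_valuation (val_eq_one hv (hx v hv))
  -- `ψ² = 1`
  have hψ2 : ∀ g, ψ g * ψ g = 1 := by
    intro g
    obtain ⟨v, hv, hu, hf⟩ := Pool.Agent.Q14.AR.cheb F M g {v | (N : 𝓞 F) ∈ v.asIdeal}
      (finite_dvd (F := F) hN)
    have h1 : Finsupp.single v (1 : ℤ) ∈ Pr F N := by
      intro u hu2
      have hne : v ≠ u := fun h => hv (h ▸ hu2)
      exact Finsupp.single_eq_of_ne' hne
    have h2 := hart _ h1
    rw [art_single, one_zsmul, chi_frob hu (frob_spec (M := M) v) hf ψ] at h2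
    have h3 := hχ2 (Finsupp.single v (1 : ℤ))
    rw [← h2, ← ofMul_mul] at h3
    exact Additive.ofMul.injective h3
  -- unramified
  have hT : Pool.Agent.Q20.EX.TrivAt Set.univ N (art ψ) := by
    intro x hx1 hx2 _
    have h1 : prin x ∈ Pr F N := fun v hv => prin_eq_zero_of_valuation (hx1 v hv)
    rw [hart _ h1]
    exact hχB _ (hBp x fun φ _ => hx2 φ)
  have hunr : ∀ (w : HeightOneSpectrum (𝓞 M)) (g : M ≃ₐ[F] M), Inert w g → ψ g = 1 := fun w g hg =>
    Pool.Agent.Q53.EX.unr Pool.Agent.Q38.EX.nrm Pool.Agent.Q285.EX.ncg Pool.Agent.Q111.EX.good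
      F M ψ N hN hRam hT w g hg
  -- real places which do not split in `H`
  have hreal : ∀ φ, ¬ SplitR H φ → ¬ RamR ψ φ := by
    intro φ hφ hr
    obtain ⟨x, hx1, -, hx3, hx4⟩ := Pool.Agent.H996.BT.lsr Pool.Agent.H389.BT.recd F M ψ hψ2 φ hr N hN
    apply hx4
    rw [hart _ (hPr x hx1)]
    exact hχB _ (hBp x fun φ' hφ' => hx3 φ' fun h => hφ (h ▸ hφ'))
  obtain ⟨L, hLgal, θ', hinj, hθ'⟩ := Pool.Agent.Q111.EX.exists_quot ψ
  have hfix : ∀ g : M ≃ₐ[F] M, ψ g = 1 → ∀ x : L, g (algebraMap L M x) = algebraMap L M x := by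
    intro g hg x
    have h1 : AlgEquiv.restrictNormal g L = 1 := hinj (by rw [hθ', hg, map_one])
    rw [← AlgEquiv.restrictNormal_commutes g L x, h1]
    rfl
  have hun : ∀ v : HeightOneSpectrum (𝓞 F), Unramified L v := fun v =>
    Pool.Agent.Q111.EX.unram_of_inert (M := M) v fun w _ g hg => hfix g (hunr w g hg)
  have hartL : ∀ D ∈ Pr F N, art θ' D = χ D := fun D hD => by
    rw [Pool.Agent.H389.BT.art_quotR ψ θ' hθ' D (fun v _ => hun v), hart D hD]
  have hθ2 : ∀ σ, θ' σ * θ' σ = 1 := by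
    intro σ
    obtain ⟨g, rfl⟩ := AlgEquiv.restrictNormalHom_surjective (F := F) (K₁ := L) M σ
    have h1 : θ' (AlgEquiv.restrictNormalHom L g) = ψ g := hθ' g
    rw [h1]
    exact hψ2 g
  -- an element which is negative at `φ₀`
  obtain ⟨x₁, hx₁c, hx₁⟩ := Pool.Agent.Q84.AR.sgn F N hN (fun φ => φ ≠ φ₀)
  have hχ1 : χ (prin x₁) ≠ 0 := by
    intro h1
    apply hχx
    have h2 : χ (prin (x₀ / x₁)) = 0 := hχB _ (hBp _ fun φ _ => by
      rw [Units.val_div_eq_div_val, map_div₀]
      by_cases hφ : φ = φ₀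
      · rw [hφ]
        exact div_pos_of_neg_of_neg (hneg x₀ hx₀) (hneg x₁ hx₁)
      · exact div_pos ((hx₀ φ).2 hφ) ((hx₁ φ).2 hφ))
    rw [prin_div, map_sub, h1, sub_zero] at h2
    exact h2
  have hart1 : art θ' (prin x₁) ≠ 0 := by
    rw [hartL _ (hPr x₁ hx₁c)]
    exact hχ1
  -- the degree
  have hpm : ∀ σ, θ' σ = 1 ∨ θ' σ = -1 := by
    intro σ
    have h2 : ((θ' σ : ℂˣ) : ℂ) * (θ' σ : ℂˣ) = 1 := by
      rw [← Units.val_mul, hθ2, Units.val_one]
    rcases mul_self_eq_one_iff.1 h2 with h3 | h3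
    · exact Or.inl (Units.ext h3)
    · right
      apply Units.ext
      rw [h3, Units.val_neg, Units.val_one]
  have hσ : ∃ σ, θ' σ ≠ 1 := by
    by_contra hall
    push Not at hall
    apply hart1
    rw [art_eq_sum]
    exact Finset.sum_eq_zero fun v _ => by rw [hall, ofMul_one, smul_zero]
  have hdeg : Module.finrank F L = 2 := by
    obtain ⟨σ, hσ⟩ := hσ
    rw [← IsGalois.card_aut_eq_finrank F L, Nat.card_eq_two_iff]
    refine ⟨1, σ, fun h => hσ (by rw [← h, map_one]), ?_⟩
    rw [Set.eq_univ_iff_forall]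
    intro τ
    rcases hpm τ with h | h
    · left
      exact hinj (by rw [h, map_one])
    · right
      rw [Set.mem_singleton_iff]
      exact hinj (by rw [h, (hpm σ).resolve_left hσ])
  obtain ⟨N2, hN2, -, hrec⟩ := Pool.Agent.H389.BT.recd F L θ'
  have hnr : ∀ v, ¬ RamAt θ' v := fun v hv => Pool.Agent.H389.BT.ramAt_ram hv (hun v)
  -- split primes
  have hsplit : ∀ v, ¬ Unramified H v → θ' (frob L v) = 1 := by
    intro v hv
    have h1 : art θ' (Finsupp.single v (1 : ℤ)) = 0 := by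
      by_cases hNv : (N : 𝓞 F) ∈ v.asIdeal
      · obtain ⟨π, hπ⟩ : ∃ π : Fˣ, prin π v = 1 := by
          obtain ⟨p, hp⟩ := v.valuation_exists_uniformizer F
          have hp0 : p ≠ 0 := by
            intro h
            rw [h, map_zero] at hp
            exact WithZero.exp_ne_zero hp.symm
          refine ⟨Units.mk0 p hp0, ?_⟩
          have h2 := Pool.Agent.Q125.AR.valuation_eq_exp (Units.mk0 p hp0) v
          rw [Units.val_mk0, hp] at h2
          have h3 := WithZero.exp_injective h2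
          omega
        obtain ⟨z, hz1, hz2, hz3⟩ := apxAt hN v π
        have hzv : prin z v = 1 := by rw [← prin_eq_of_near hNv (hz3 hNv), hπ]
        have h2 : Finsupp.single v (1 : ℤ) - prin z ∈ Pr F N := by
          intro u hu
          rw [Finsupp.sub_apply]
          by_cases huv : v = u
          · rw [← huv, Finsupp.single_eq_same, hzv, sub_self]
          · rw [Finsupp.single_eq_of_ne' huv, prin_eq_zero_of_valuation (val_eq_one hu
              (hz2 u (fun h => huv (Set.mem_singleton_iff.1 h).symm) hu)), sub_zero]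
        have h3 := hartL _ h2
        rw [map_sub, map_sub, hχB _ (hBq v 1 hv), hχB _ (hBp z fun φ _ => hz1 φ),
          hrec z (fun u hu => absurd hu (hnr u)) (fun φ _ => hz1 φ), sub_zero, sub_zero] at h3
        exact h3
      · have h2 : Finsupp.single v (1 : ℤ) ∈ Pr F N := by
          intro u hu2
          have hne : v ≠ u := fun h => hNv (h ▸ hu2)
          exact Finsupp.single_eq_of_ne' hne
        rw [hartL _ h2]
        exact hχB _ (hBq v 1 hv)
    rw [art_single, one_zsmul] at h1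
    exact Additive.ofMul.injective h1
  -- the quadratic extension is real
  have hall := hd L hdeg (fun v => Pool.Agent.H788.BT.squarefree_of_unr (hun v))
    (fun v hv => not_prime_of_split hdeg (Pool.Agent.Q111.EX.split_of_inj θ' hinj (hun v)
      (hsplit v fun h => hv (Pool.Agent.H788.BT.squarefree_of_unr h))))
    (fun φ hφ => Pool.Agent.H389.BT.real_ext L φ fun ι g hι hg => hfix g (by
      by_contra h
      exact hreal φ hφ ⟨ι, g, hι, hg, h⟩))
  apply hart1
  refine hrec x₁ (fun v hv => absurd hv (hnr v)) fun φ hφ => ?_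
  exfalso
  obtain ⟨ι, g, hι, hg, h⟩ := hφ
  obtain ⟨χL, hχL⟩ := hall φ
  apply h
  rw [Pool.Agent.H996.BT.psi_conj θ' φ ι (Complex.ofRealHom.comp χL) g 1 hι (fun x => by
    rw [← hχL]
    rfl) hg (fun x => ?_), map_one]
  change ((χL x : ℝ) : ℂ) = (starRingEnd ℂ) ((χL x : ℝ) : ℂ)
  rw [Complex.conj_ofReal]

end Pool.Agent.H896.SG
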