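import Pool.Agent.H896.SG.Quad

/-!
# The sign of an element which is a square at the places which ramify
-/

set_option autoImplicit false
set_option linter.unusedSectionVars false
set_option linter.deprecated false

open NumberField IsDedekindDomain Filter Topology Module

noncomputable section

namespace Pool.Agent.H896.SG

open Pool.Agent.BT9
open Pool.Agent.Q92.AR (Dv prin Pr Ray nmD nu up sD puD Cong Pos frob IsFrobenius Unramified Ram art
  prin_mul prin_one prin_inv frob_spec)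
open Pool.Agent.K3h30.RS
open Pool.Agent.H788.BT (even_of_sq)

/-- the real place `φ` of `F` splits in `H` -/
def SplitR (H : Type) {F : Type} [Field F] [Field H] [Algebra F H] (φ : F →+* ℝ) : Prop :=
  ∃ χ : H →+* ℝ, χ.comp (algebraMap F H) = φ

variable {F H : Type} [Field F] [NumberField F] [Field H] [NumberField H] [Algebra F H]

theorem pos_of_split {φ : F →+* ℝ} (hφ : SplitR H φ) {x : Fˣ} {h : Hˣ} (hx : up F H x = h ^ 2) :
    0 < φ (x : F) := by
  obtain ⟨χ, hχ⟩ := hφ
  have h1 : algebraMap F H (x : F) = (h : H) ^ 2 := congrArg Units.val hx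
  have h2 : φ (x : F) = χ (h : H) ^ 2 := by
    rw [← hχ, RingHom.comp_apply, h1, map_pow]
  rw [h2]
  have h3 : χ (h : H) ≠ 0 := (map_ne_zero χ).2 h.ne_zero
  positivity

theorem even_sq {x : Fˣ} {h : Hˣ} (hx : up F H x = h ^ 2) (v : HeightOneSpectrum (𝓞 F))
    (hv : Unramified H v) : Even (prin x v) := by
  obtain ⟨w, v', hv', hw⟩ := (Pool.Agent.K3h25.RS.t_OVER F H v).1
  rw [Set.mem_singleton_iff] at hv'
  subst hv'
  have hwv : w.under (𝓞 F) = v' := HeightOneSpectrum.ext hw
  rw [← hwv] at hv ⊢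
  exact even_of_sq hx w hv

/-- **the key lemma** -/
theorem key (z : Fˣ) (φ : F →+* ℝ) (hφ : SplitR H φ) (hz : φ (z : F) < 0)
    (hz' : ∀ φ', φ' ≠ φ → SplitR H φ' → 0 < φ' (z : F))
    (hze : ∀ v, Unramified H v → Even (prin z v))
    (b : Fˣ) (hbe : ∀ v, Unramified H v → Even (prin b v))
    (x : Fˣ) (h : Hˣ) (hx : up F H x = h ^ 2)
    (hfin : ∀ v, ¬ Unramified H v → LocSq v (b * x))
    (h2 : ∀ v : HeightOneSpectrum (𝓞 F), (2 : 𝓞 F) ∈ v.asIdeal → Unramified H v →
      Pool.Agent.H896.SE.NearSq v (b * x))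
    (hinf : ∀ φ' : F →+* ℝ, ¬ SplitR H φ' → 0 < φ' ((b * x : Fˣ) : F)) : 0 < φ (b : F) := by
  by_contra hb
  have hb1 : φ (b : F) < 0 := lt_of_le_of_ne (not_lt.1 hb) ((map_ne_zero φ).2 b.ne_zero)
  have hbx : φ ((b * x : Fˣ) : F) < 0 := by
    rw [Units.val_mul, map_mul]
    exact mul_neg_of_neg_of_pos hb1 (pos_of_split hφ hx)
  have hns : ¬ IsSquare ((b * x : Fˣ) : F) := by
    rintro ⟨r, hr⟩
    rw [hr, map_mul] at hbx
    exact absurd hbx (not_lt.2 (mul_self_nonneg _))
  obtain ⟨E, _, _, _, _, e, ψ, he, hgen, hψ, hψ2⟩ := exists_quad _ hns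
  have hr : ∀ v, ¬ RamAt ψ v := by
    intro v
    by_cases hv : Unramified H v
    · by_cases hv2 : (2 : 𝓞 F) ∈ v.asIdeal
      · exact not_ram_near ψ (b * x) e he hgen v (h2 v hv2 hv)
      · refine not_ram_even ψ (b * x) e he hgen v hv2 ?_
        rw [prin_mul, Finsupp.add_apply]
        exact (hbe v hv).add (even_sq hx v hv)
    · exact not_ram_near ψ (b * x) e he hgen v (hfin v hv).near
  have h3 := art_ne ψ hψ2 hr φ (ramR_neg ψ hψ (b * x) e he φ hbx) z hz (fun φ' hne hφ' => by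
    refine hz' φ' hne ?_
    by_contra hs
    exact ramR_pos ψ (b * x) e he hgen φ' (hinf φ' hs) hφ')
  apply h3
  refine art_zero ψ hψ2 _ fun v => ?_
  by_cases hv : Unramified H v
  · exact Or.inl (hze v hv)
  · right
    rw [frob_one (b * x) e he hgen v (hfin v hv), map_one]

end Pool.Agent.H896.SG
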