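import Pool.Agent.H896.SE.Wild
import Pool.Agent.H896.SG.Key

/-!
# The bound for the group generated by the decomposition groups, with independent signs
-/

set_option autoImplicit false
set_option linter.unusedSectionVars false
set_option linter.deprecated false

open NumberField IsDedekindDomain Filter Topology Module

noncomputable section

namespace Pool.Agent.H896.SG

open Pool.Agent.BT9
open Pool.Agent.Q92.AR (Dv prin Pr Ray nmD nu up sD puD Cong Pos frob IsFrobenius Unramified Ram art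
  prin_mul prin_one prin_inv)
open Pool.Agent.K3h30.RS
open Pool.Agent.K3h56.E2 (Quad Dict)
open Pool.Agent.H509.E3 (dg mem_dg)
open Pool.Agent.H788.BT (two_notMem val_inv fr_even even_of_sq YY mem_YY kum kum_apply kum_inj
  dg_unram ram_fix arch_fix Qa index_Qa card_char_le)

/-- the index of a subgroup of the kernel -/
theorem sq_le_index3 {A G Y L C : Type} [CommGroup A] [CommGroup G] [Finite G] [CommGroup Y]
    [Field L] [Finite C] (lam : A →* G) (Q : Subgroup A) (hQ : Q.index ≠ 0) (hQk : Q ≤ lam.ker)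
    (φ : Y →* A) (hφ : φ.range ≤ lam.ker) (χ : lam.range → (Y →* L)) (hχ : Function.Injective χ)
    (htriv : ∀ γ, ∀ y, φ y ∈ Q → χ γ y = 1) (f : C → A) (hf : ∀ s, lam (f s) = 1)
    (hinj : ∀ s s' y, (f s)⁻¹ * f s' * φ y ∈ Q → s = s') :
    Nat.card C * Nat.card lam.range ^ 2 ≤ Q.index := by
  have h1 : (Q.comap φ).index = Q.relIndex φ.range := Subgroup.index_comap Q φ
  have hne : Q.relIndex lam.ker ≠ 0 := by
    intro h
    apply hQ
    have h2 := Subgroup.relIndex_mul_index hQk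
    rw [h, zero_mul] at h2
    exact h2.symm
  have hZ : (Q.comap φ).index ≠ 0 := by
    rw [h1]
    intro h
    apply hQ
    exact Subgroup.index_eq_zero_of_relIndex_eq_zero h
  have h3 : Nat.card lam.range ≤ (Q.comap φ).index :=
    card_char_le (Q.comap φ) hZ χ hχ fun γ y hy => htriv γ y hy
  have h4 : lam.ker.index = Nat.card lam.range := Subgroup.index_ker lam
  set R : Subgroup A := φ.range ⊔ Q with hR
  have hRk : R ≤ lam.ker := sup_le hφ hQk
  have hQR : Q ≤ R := le_sup_right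
  have h5 : Q.relIndex R * R.relIndex lam.ker = Q.relIndex lam.ker :=
    Subgroup.relIndex_mul_relIndex Q R lam.ker hQR hRk
  have hRne : R.relIndex lam.ker ≠ 0 := by
    intro h
    apply hne
    rw [← h5, h, mul_zero]
  have hQRne : Q.relIndex R ≠ 0 := by
    intro h
    apply hne
    rw [← h5, h, zero_mul]
  have h6 : Nat.card lam.range ≤ Q.relIndex R := by
    refine h3.trans (h1.le.trans ?_)
    exact Subgroup.relIndex_le_of_le_right le_sup_left hQRne
  have h7 : Nat.card C ≤ R.relIndex lam.ker := by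
    have hfi : (R.subgroupOf lam.ker).FiniteIndex := ⟨hRne⟩
    have hfin : Finite (lam.ker ⧸ R.subgroupOf lam.ker) := inferInstance
    refine Nat.card_le_card_of_injective
      (fun s => (QuotientGroup.mk (⟨f s, MonoidHom.mem_ker.2 (hf s)⟩ : lam.ker) :
        lam.ker ⧸ R.subgroupOf lam.ker)) ?_
    intro s s' hss
    have h8 := QuotientGroup.eq.1 hss
    rw [Subgroup.mem_subgroupOf] at h8
    have h9 : (f s)⁻¹ * f s' ∈ φ.range ⊔ Q := h8
    obtain ⟨a, ⟨y, rfl⟩, q, hq, haq⟩ := Subgroup.mem_sup.1 h9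
    refine hinj s s' y⁻¹ ?_
    rw [← haq, map_inv, mul_comm (φ y) q, mul_assoc, mul_inv_cancel, mul_one]
    exact hq
  calc Nat.card C * Nat.card lam.range ^ 2
      = Nat.card lam.range * Nat.card C * lam.ker.index := by rw [h4]; ring
    _ ≤ Q.relIndex R * R.relIndex lam.ker * lam.ker.index :=
        Nat.mul_le_mul_right _ (Nat.mul_le_mul h6 h7)
    _ = Q.index := by rw [h5, Subgroup.relIndex_mul_index hQk]

variable {F H G : Type} [Field F] [NumberField F] [Field H] [NumberField H] [Algebra F H]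
  [CommGroup G] [Finite G] [MulSemiringAction G H]

/-- the local group at a prime ideal -/
theorem exQ_fin3 [SMulCommClass G F H] (hG : ∀ g : G, g * g = 1) (w : HeightOneSpectrum (𝓞 H))
    (N : ℕ) (hN : N ≠ 0) (L : Fˣ →* G)
    (hnear : ∀ x, Near N (Sum.inr w : Place H) x → L x = 1) :
    ∃ Q : Subgroup Fˣ, Q.index ≠ 0 ∧
      Q.index ≤ 4 * Ideal.absNorm (w.under (𝓞 F)).asIdeal ^ e2 (w.under (𝓞 F)) ∧
      (∀ x ∈ Q, L x = 1) ∧ ∀ x ∈ Q, LocSq (w.under (𝓞 F)) x := by
  set v := w.under (𝓞 F) with hv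
  have hNF : (N : F) ≠ 0 := Nat.cast_ne_zero.2 hN
  set m : ℕ := (prin (Units.mk0 (N : F) hNF) v).toNat with hm
  set e : ℕ := 2 * e2 v + 1 + m with he
  have he1 : 1 ≤ e := by omega
  have hprim : IsPrimitiveRoot (-1 : F) 2 := IsPrimitiveRoot.neg_one 0 (by norm_num)
  have hidx := Pool.Agent.Q299.EX.index_Hv Pool.Agent.Q299.EX.locn (n := 2) two_pos hprim v
    (e2 v) e he1 (two_notMem v)
  refine ⟨Pool.Agent.Q299.EX.Hv v 2 e he1, hidx.1, ?_, ?_, ?_⟩
  · refine hidx.2.trans (le_of_eq ?_)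
    ring
  · rintro x ⟨y, hy⟩
    have h1 : L (x / y ^ 2) = 1 := by
      apply hnear
      change v.valuation F (((x / y ^ 2 : Fˣ) : F) - 1) ≤ v.valuation F (N : F)
      rw [Units.val_div_eq_div_val, Units.val_pow_eq_pow_val]
      refine hy.trans ?_
      have h2 : v.valuation F (N : F) = WithZero.exp (-(prin (Units.mk0 (N : F) hNF) v)) :=
        Pool.Agent.Q125.AR.valuation_eq_exp (Units.mk0 (N : F) hNF) v
      rw [h2, WithZero.exp_le_exp]
      have h3 : prin (Units.mk0 (N : F) hNF) v ≤ (m : ℤ) := Int.self_le_toNat _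
      push_cast [he]
      omega
    rw [map_div, map_pow, pow_two, hG, div_one] at h1
    exact h1
  · rintro x ⟨y, hy⟩
    refine ⟨y, hy.trans_lt ?_⟩
    have h2 : v.valuation F (2 : F) = WithZero.exp (-(prin (Units.mk0 (2 : F) two_ne_zero) v)) :=
      Pool.Agent.Q125.AR.valuation_eq_exp (Units.mk0 (2 : F) two_ne_zero) v
    have h4 : (4 : F) = 2 ^ 2 := by norm_num
    rw [h4, map_pow, h2, ← WithZero.exp_nsmul, WithZero.exp_lt_exp]
    have h3 : prin (Units.mk0 (2 : F) two_ne_zero) v ≤ (e2 v : ℤ) := Int.self_le_toNat _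
    rw [nsmul_eq_mul]
    push_cast [he]
    omega

/-- the elements of a decomposition group fix the square roots of the local squares -/
theorem fin_fix [SMulCommClass G F H] {w : HeightOneSpectrum (𝓞 H)} {x : Fˣ} {h : H}
    (hx : algebraMap F H (x : F) = h ^ 2) (hl : LocSq (w.under (𝓞 F)) x) {γ : G}
    (hγ : Fixes (Sum.inr w : Place H) γ) : γ • h = h := by
  obtain ⟨y, hy⟩ := hl
  have hov : Pool.Agent.TeamU.Over w (w.under (𝓞 F)) := rfl
  have hne : ((w.under (𝓞 F)).asIdeal.ramificationIdx' w.asIdeal) ≠ 0 := by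
    have hlo : w.asIdeal.LiesOver (w.under (𝓞 F)).asIdeal := ⟨rfl⟩
    have hwm := w.isMaximal
    exact Ideal.IsDedekindDomain.ramificationIdx'_ne_zero_of_liesOver w.asIdeal
      (w.under (𝓞 F)).ne_bot
  refine ram_fix (y := y) hx ?_ (val_inv hγ)
  have h2F : w.valuation H 2 ^ 2 = (w.under (𝓞 F)).valuation F 4 ^
      ((w.under (𝓞 F)).asIdeal.ramificationIdx' w.asIdeal) := by
    have e0 : algebraMap F H 4 = 2 ^ 2 := by
      rw [map_ofNat]
      norm_num
    rw [← Pool.Agent.TeamU.val_over hov, e0, map_pow]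
  rw [Pool.Agent.TeamU.val_over hov, h2F]
  exact pow_lt_pow_left₀ hy zero_le' hne

/-- the ramified prime ideals belong to the symbols -/
theorem exists_index [IsGaloisGroup G F H] (D : RubinData F H G) (Λ : Lam D)
    (v : HeightOneSpectrum (𝓞 F)) (hv : ¬ Unramified H v) :
    ∃ (i : Λ.ι) (w : HeightOneSpectrum (𝓞 H)), Λ.u i = Sum.inr w ∧ w.under (𝓞 F) = v := by
  obtain ⟨w, hw⟩ := (Pool.Agent.K3h25.RS.t_OVER F H v).1
  have hwv : w.under (𝓞 F) = v := by
    obtain ⟨v', hv', hw'⟩ := hw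
    rw [Set.mem_singleton_iff] at hv'
    subst hv'
    exact HeightOneSpectrum.ext hw'
  have hvS : v ∈ D.S := by
    by_contra h
    exact hv (Pool.Agent.H509.Rec.unr_of_squarefree (D.unramified v h))
  have hin : InS (D.S : Set (HeightOneSpectrum (𝓞 F))) (Sum.inr w : Place H) := by
    refine ⟨v, hvS, ?_⟩
    rw [← hwv]
    rfl
  have hns : ∀ j, ¬ Conj G (Sum.inr w : Place H) (D.w j) := by
    intro j hj
    apply hv
    rw [← hwv]
    exact Pool.Agent.H896.SE.unramified_of_splits (G := G) fun γ hγ =>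
      D.splits j γ (Pool.Agent.H509.E3.fixes_conj hj hγ)
  obtain ⟨i, hi⟩ := Λ.all _ hin hns
  obtain ⟨p, hp⟩ := Pool.Agent.K3h73.E2.exists_below (F := F) (Λ.u i)
  have h1 : (Sum.inr v : InfinitePlace F ⊕ HeightOneSpectrum (𝓞 F)) = p :=
    Pool.Agent.K3h73.E2.below_of_conj (p := Sum.inr v) (w := Sum.inr w) hw hp hi
  rw [← h1] at hp
  refine ⟨i, ?_⟩
  rcases hui : Λ.u i with w' | w'
  · rw [hui] at hp
    exact hp.elim
  · rw [hui] at hp
    refine ⟨w', rfl, ?_⟩
    obtain ⟨v', hv', hw'⟩ := (show Above {v} w' from hp)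
    rw [Set.mem_singleton_iff] at hv'
    subst hv'
    exact HeightOneSpectrum.ext hw'

/-- the real places which do not split belong to the symbols -/
theorem exists_index_inf [IsGaloisGroup G F H] (D : RubinData F H G) (Λ : Lam D)
    (v : InfinitePlace F) (hv : v.IsReal)
    (hc : ∀ w : InfinitePlace H, w.comap (algebraMap F H) = v → w.IsComplex) :
    ∃ (i : Λ.ι) (w : InfinitePlace H), Λ.u i = Sum.inl w ∧ w.comap (algebraMap F H) = v := by
  obtain ⟨w, γ, hw, hf, hγ⟩ := Pool.Agent.H627.BT.exists_cc (G := G) v hv hc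
  have h4 : ∀ j, ¬ Conj G (Sum.inl w : Place H) (D.w j) := fun j hj =>
    hγ (D.splits j γ (Pool.Agent.H509.E3.fixes_conj hj hf))
  obtain ⟨i, hi⟩ := Λ.all (Sum.inl w) trivial h4
  obtain ⟨p, hp⟩ := Pool.Agent.K3h73.E2.exists_below (F := F) (Λ.u i)
  have h1 : (Sum.inl v : InfinitePlace F ⊕ HeightOneSpectrum (𝓞 F)) = p :=
    Pool.Agent.K3h73.E2.below_of_conj (p := Sum.inl v) (w := Sum.inl w) hw hp hi
  rw [← h1] at hp
  refine ⟨i, ?_⟩
  rcases hui : Λ.u i with w' | w'
  · rw [hui] at hp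
    exact ⟨w', rfl, hp⟩
  · rw [hui] at hp
    exact hp.elim

end Pool.Agent.H896.SG
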