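import Pool.Agent.H896.SG.Iso

/-!
# The bound for the group generated by the decomposition groups, with independent signs
-/

set_option autoImplicit false
set_option linter.unusedSectionVars false
set_option linter.deprecated false

open NumberField IsDedekindDomain Filter Topology Module

noncomputable section

namespace Pool.Agent.H896.SG

open Pool.Agent.BT9
open Pool.Agent.Q92.AR (Dv prin Pr Ray nmD nu up sD puD Cong Pos frob IsFrobenius Unramified Ram art
  prin_mul prin_one prin_inv prin_div)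
open Pool.Agent.K3h30.RS
open Pool.Agent.K3h56.E2 (Quad Dict)
open Pool.Agent.H509.E3 (dg mem_dg)
open Pool.Agent.H788.BT (two_notMem val_inv fr_even even_of_sq YY mem_YY kum kum_apply kum_inj
  dg_unram ram_fix arch_fix Qa index_Qa card_char_le)
open Pool.Agent.H896.SE (NearSq index_unr val_lt_one)
open Pool.Agent.H221.BT (exists_prin exists_glob Nr)

/-- the elements with even valuation at `v` -/
def EvenAt {F : Type} [Field F] [NumberField F] (v : HeightOneSpectrum (𝓞 F)) : Subgroup Fˣ where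
  carrier := {x | Even (prin x v)}
  mul_mem' {x y} hx hy := by
    change Even (prin (x * y) v)
    rw [prin_mul, Finsupp.add_apply]
    exact hx.add hy
  one_mem' := by
    change Even (prin (1 : Fˣ) v)
    rw [prin_one, Finsupp.zero_apply]
    exact Even.zero
  inv_mem' {x} hx := by
    change Even (prin x⁻¹ v)
    rw [prin_inv, Finsupp.neg_apply]
    exact hx.neg

theorem mem_EvenAt {F : Type} [Field F] [NumberField F] {v : HeightOneSpectrum (𝓞 F)} {x : Fˣ} :
    x ∈ EvenAt v ↔ Even (prin x v) := Iff.rfl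

theorem index_even {F : Type} [Field F] [NumberField F] (v : HeightOneSpectrum (𝓞 F)) :
    (EvenAt v).index ≠ 1 := by
  rw [Ne, Subgroup.index_eq_one]
  intro h
  obtain ⟨x, hx⟩ := exists_prin v 1
  have h1 : x ∈ EvenAt v := by
    rw [h]
    exact Subgroup.mem_top x
  rw [mem_EvenAt, hx] at h1
  exact absurd h1 (by decide)

theorem even_of_near {F : Type} [Field F] [NumberField F] {v : HeightOneSpectrum (𝓞 F)} {x : Fˣ}
    (h : NearSq v x) : Even (prin x v) := by
  obtain ⟨y, -, hy⟩ := h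
  have h1 : v.valuation F ((x / y ^ 2 : Fˣ) : F) = 1 := by
    rw [Units.val_div_eq_div_val, Units.val_pow_eq_pow_val]
    have h3 : v.valuation F ((x : F) / (y : F) ^ 2 - 1) < v.valuation F (1 : F) := by
      rw [map_one]
      exact hy
    have h4 := Valuation.map_add_eq_of_lt_right (v.valuation F) h3
    rw [sub_add_cancel, map_one] at h4
    exact h4
  rw [Pool.Agent.Q125.AR.valuation_eq_exp, ← WithZero.exp_zero] at h1
  have h2 := WithZero.exp_injective h1
  have h3 : x = x / y ^ 2 * (y * y) := by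
    rw [← pow_two, div_mul_cancel]
  rw [h3, prin_mul, Finsupp.add_apply, prin_mul, Finsupp.add_apply]
  have h4 : prin (x / y ^ 2) v = 0 := by omega
  rw [h4, zero_add]
  exact ⟨_, rfl⟩

theorem exists_E {F : Type} [Field F] [NumberField F] (v : HeightOneSpectrum (𝓞 F))
    (h2 : (2 : 𝓞 F) ∈ v.asIdeal) :
    ∃ E : Subgroup Fˣ, E.relIndex (EvenAt v) ≠ 0 ∧ E.relIndex (EvenAt v) ≤ 2 ^ deg2 v ∧
      ∀ x ∈ E, NearSq v x := by
  have hv2 : v.valuation F (2 : F) < 1 := by
    have h3 : v.valuation F (algebraMap (𝓞 F) F 2) < 1 := val_lt_one v h2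
    rwa [map_ofNat] at h3
  have h2e : v.valuation F (2 : F) = WithZero.exp (-(prin (Units.mk0 (2 : F) two_ne_zero) v)) :=
    Pool.Agent.Q125.AR.valuation_eq_exp (Units.mk0 (2 : F) two_ne_zero) v
  have hpos : 0 < prin (Units.mk0 (2 : F) two_ne_zero) v := by
    rw [h2e, ← WithZero.exp_zero, WithZero.exp_lt_exp] at hv2
    omega
  have hk : (e2 v : ℤ) = prin (Units.mk0 (2 : F) two_ne_zero) v := by
    unfold e2
    exact Int.toNat_of_nonneg hpos.le
  have hk1 : 1 ≤ e2 v := by omega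
  have h2e' : v.valuation F (2 : F) = WithZero.exp (-(e2 v : ℤ)) := by rw [h2e, hk]
  have h4e : v.valuation F (4 : F) = WithZero.exp (-((2 * e2 v : ℕ) : ℤ)) := by
    have e : (4 : F) = 2 ^ 2 := by norm_num
    rw [e, map_pow, h2e', ← WithZero.exp_nsmul]
    congr 1
    push_cast
    simp
  have hidx := index_unr v h2 (e2 v) hk1 h2e'
  rw [Pool.Agent.H161.BT.n2 F v h2] at hidx
  have hnear : ∀ x ∈ Pool.Agent.Q299.EX.Hv v 2 (2 * e2 v) (by omega), NearSq v x := by
    rintro x ⟨y, hy⟩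
    refine ⟨y, by rw [h4e]; exact hy, hy.trans_lt ?_⟩
    rw [← WithZero.exp_zero, WithZero.exp_lt_exp]
    push_cast
    omega
  set E := Pool.Agent.Q299.EX.Hv v 2 (2 * e2 v) (by omega) with hE
  have hle : E ≤ EvenAt v := fun x hx => even_of_near (hnear x hx)
  have h1 : E.relIndex (EvenAt v) * (EvenAt v).index = E.index := Subgroup.relIndex_mul_index hle
  have h3 : E.relIndex (EvenAt v) ≠ 0 := by
    intro h
    rw [h, zero_mul] at h1
    exact hidx.1 h1.symm
  have h4 : (EvenAt v).index ≠ 0 := by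
    intro h
    rw [h, mul_zero] at h1
    exact hidx.1 h1.symm
  have h5 : 2 ≤ (EvenAt v).index := by
    have := index_even v
    omega
  refine ⟨E, h3, ?_, hnear⟩
  have h6 : 4 * E.relIndex (EvenAt v) ≤ 4 * 2 ^ deg2 v := by
    calc 4 * E.relIndex (EvenAt v) = 2 * (E.relIndex (EvenAt v) * 2) := by ring
      _ ≤ 2 * (E.relIndex (EvenAt v) * (EvenAt v).index) :=
        Nat.mul_le_mul_left _ (Nat.mul_le_mul_left _ h5)
      _ = 2 * E.index := by rw [h1]
      _ ≤ _ := hidx.2
  omega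

/-- the signs of the products -/
theorem sign_prod {F : Type} [Field F] {R : Type} [DecidableEq R]
    (e : R → (F →+* ℝ)) (z : R → Fˣ) (h1 : ∀ a, e a (z a : F) < 0)
    (h2 : ∀ a b, a ≠ b → 0 < e a (z b : F)) (s : Finset R) (a : R) :
    (a ∈ s → e a ((∏ b ∈ s, z b : Fˣ) : F) < 0) ∧
      (a ∉ s → 0 < e a ((∏ b ∈ s, z b : Fˣ) : F)) := by
  have hpos : ∀ s : Finset R, a ∉ s → 0 < e a ((∏ b ∈ s, z b : Fˣ) : F) := by
    intro s ha
    rw [Units.coe_prod, map_prod]
    exact Finset.prod_pos fun b hb => h2 a b (fun h => ha (h ▸ hb))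
  refine ⟨fun ha => ?_, hpos s⟩
  rw [← Finset.mul_prod_erase s z ha, Units.val_mul, map_mul]
  exact mul_neg_of_neg_of_pos (h1 a) (hpos _ (Finset.notMem_erase a s))

theorem finite_real {F : Type} [Field F] [NumberField F] : Finite (F →+* ℝ) := by
  refine Finite.of_injective (fun φ : F →+* ℝ => (algebraMap ℝ ℂ).comp φ) fun φ φ' h => ?_
  ext a
  exact Complex.ofReal_injective (DFunLike.congr_fun h a)

theorem isReal_mk {F : Type} [Field F] (φ : F →+* ℝ) :
    (InfinitePlace.mk ((algebraMap ℝ ℂ).comp φ)).IsReal := by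
  refine ⟨(algebraMap ℝ ℂ).comp φ, ?_, rfl⟩
  rw [ComplexEmbedding.isReal_iff]
  ext x
  rw [ComplexEmbedding.conjugate_coe_eq]
  exact Complex.conj_ofReal _

theorem complex_of_not_split {F H : Type} [Field F] [NumberField F] [Field H] [NumberField H]
    [Algebra F H] {φ : F →+* ℝ} (hφ : ¬ SplitR H φ) (w : InfinitePlace H)
    (hw : w.comap (algebraMap F H) = InfinitePlace.mk ((algebraMap ℝ ℂ).comp φ)) :
    w.IsComplex := by
  rw [← InfinitePlace.not_isReal_iff_isComplex]
  intro hr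
  apply hφ
  have h1 : ComplexEmbedding.IsReal w.embedding := InfinitePlace.isReal_iff.1 hr
  refine ⟨h1.embedding, ?_⟩
  apply Pool.Agent.H788.BT.real_unique
  have h2 : w.comap (algebraMap F H) = InfinitePlace.mk (w.embedding.comp (algebraMap F H)) := by
    conv_lhs => rw [← InfinitePlace.mk_embedding w]
    exact InfinitePlace.comap_mk _ _
  rw [← hw, h2]
  congr 1
  ext x
  exact h1.coe_embedding_apply (algebraMap F H x)
variable {F H G : Type} [Field F] [NumberField F] [Field H] [NumberField H] [Algebra F H]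
  [CommGroup G] [Finite G] [MulSemiringAction G H]

/-- an element with the same symbols and even valuations at the given unramified primes -/
theorem exists_rep [IsGaloisGroup G F H] (D : RubinData F H G) (Λ : Lam D)
    (U2 : Finset (HeightOneSpectrum (𝓞 F))) (hU2 : ∀ v ∈ U2, Unramified H v) (x : Fˣ) :
    ∃ x' : Fˣ, (∀ v ∈ U2, Even (prin x' v)) ∧ ∀ i,
      ¬ (∃ w : HeightOneSpectrum (𝓞 H), Λ.u i = Sum.inr w ∧ Unramified H (w.under (𝓞 F))) →
      Λ.L i x' = Λ.L i x := by
  obtain ⟨x', h1, h2⟩ := exists_glob Λ.N0 (fun _ => x) U2 (fun _ => 0)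
  refine ⟨x', fun v hv => ?_, fun i hi => ?_⟩
  · rw [h1 v hv]
    exact Even.zero
  · have h3 : Λ.L i (x' / x) = 1 := by
      apply Λ.near
      rcases hw : Λ.u i with w | w
      · exact h2 (Sum.inl (w.comap (algebraMap F H))) (fun v _ h => absurd h (by simp))
      · have h4 := h2 (Sum.inr (w.under (𝓞 F))) (fun v hv h => by
          obtain rfl := Sum.inr_injective h
          exact hi ⟨w, hw, hU2 _ hv⟩)
        have h5 := Λ.ins i
        rw [hw] at h5
        obtain ⟨v, hv, hwv⟩ := (show Above (D.S : Set (HeightOneSpectrum (𝓞 F))) w from h5)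
        have h6 : w.under (𝓞 F) = v := HeightOneSpectrum.ext hwv
        exact h4 (by rw [h6]; exact Λ.NS v hv)
    rw [map_div, div_eq_one] at h3
    exact h3

/-- **the bound with independent signs** -/
theorem iso3 [IsGaloisGroup G F H] (D : RubinData F H G) (hG : ∀ g : G, g * g = 1) (Λ : Lam D)
    (U2 : Finset (HeightOneSpectrum (𝓞 F)))
    (hU2 : ∀ v, v ∈ U2 ↔ (2 : 𝓞 F) ∈ v.asIdeal ∧ Unramified H v)
    (hx : ∀ φ : F →+* ℝ, SplitR H φ → ∃ z : Fˣ, φ (z : F) < 0 ∧
      (∀ φ', φ' ≠ φ → SplitR H φ' → 0 < φ' (z : F)) ∧ ∀ v, Unramified H v → Even (prin z v)) :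
    2 ^ Nat.card {φ : F →+* ℝ // SplitR H φ} * Nat.card (Sg D) ^ 2 ≤
      (letI := Λ.fin; ∏ i, lb F (Λ.u i)) * 2 ^ ∑ v ∈ U2, deg2 v := by
  let _ := Λ.fin
  classical
  have hcomm : SMulCommClass G F H := IsGaloisGroup.commutes
  have hfinR : Finite (F →+* ℝ) := finite_real
  have hfinR' : Finite {φ : F →+* ℝ // SplitR H φ} := inferInstance
  let U : Λ.ι → Prop := fun i => ∃ w : HeightOneSpectrum (𝓞 H), Λ.u i = Sum.inr w ∧
    Unramified H (w.under (𝓞 F))
  have hlbU : ∀ i, U i → lb F (Λ.u i) = 4 := by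
    rintro i ⟨w, hw, hu⟩
    rw [hw]
    exact if_pos hu
  have hQ : ∀ i, ∃ Q : Subgroup Fˣ, Q.index ≠ 0 ∧
      Q.index ≤ (if U i then 1 else lb F (Λ.u i)) ∧
      (¬ U i → (∀ x ∈ Q, Λ.L i x = 1) ∧
        (∀ w : HeightOneSpectrum (𝓞 H), Λ.u i = Sum.inr w → ∀ x ∈ Q, LocSq (w.under (𝓞 F)) x) ∧
        (∀ w : InfinitePlace H, Λ.u i = Sum.inl w → ∀ x ∈ Q, ∀ φ : F →+* ℝ,
          InfinitePlace.mk ((algebraMap ℝ ℂ).comp φ) = w.comap (algebraMap F H) →
          0 < φ (x : F))) := by
    intro i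
    by_cases hU : U i
    · refine ⟨⊤, ?_, ?_, fun h => absurd hU h⟩
      · rw [Subgroup.index_top]
        exact one_ne_zero
      · rw [if_pos hU, Subgroup.index_top]
    · rw [if_neg hU]
      rcases hw : Λ.u i with w | w
      · refine ⟨Qa F w, (index_Qa w).1, (index_Qa w).2, fun _ => ⟨fun x hx => ?_, ?_, ?_⟩⟩
        · refine Λ.near i x ?_
          rw [hw]
          exact hx
        · intro w' hw'
          exact absurd hw' (by simp)
        · intro w' hw' x hx φ hφ
          obtain rfl := Sum.inl_injective hw'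
          exact hx φ hφ
      · obtain ⟨Q, h1, h2, h3, h4⟩ := exQ_fin3 (F := F) (G := G) hG w Λ.N Λ.N0 (Λ.L i)
          (fun x hx => by
            refine Λ.near i x ?_
            rw [hw]
            exact hx)
        refine ⟨Q, h1, ?_, fun _ => ⟨h3, ?_, ?_⟩⟩
        · have hu : ¬ Unramified H (w.under (𝓞 F)) := fun hu => hU ⟨w, hw, hu⟩
          refine h2.trans (le_of_eq ?_)
          exact (if_neg hu).symm
        · intro w' hw'
          obtain rfl := Sum.inr_injective hw'
          exact h4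
        · intro w' hw'
          exact absurd hw' (by simp)
  choose Q hQ0 hQ1 hQ2 using hQ
  have hE : ∀ v : HeightOneSpectrum (𝓞 F), ∃ E : Subgroup Fˣ, v ∈ U2 →
      E.relIndex (EvenAt v) ≠ 0 ∧ E.relIndex (EvenAt v) ≤ 2 ^ deg2 v ∧ ∀ x ∈ E, NearSq v x := by
    intro v
    by_cases hv : v ∈ U2
    · obtain ⟨E, h⟩ := exists_E v ((hU2 v).1 hv).1
      exact ⟨E, fun _ => h⟩
    · exact ⟨⊤, fun h => absurd h hv⟩
  choose E hE using hE
  -- the even elements
  let A' : Subgroup Fˣ := ⨅ v : {v // v ∈ U2}, EvenAt v.1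
  have hA' : ∀ x, x ∈ A' ↔ ∀ v ∈ U2, Even (prin x v) := fun x => by
    change x ∈ (⨅ v : {v // v ∈ U2}, EvenAt v.1) ↔ _
    rw [Subgroup.mem_iInf]
    exact ⟨fun h v hv => h ⟨v, hv⟩, fun h v => h v.1 v.2⟩
  let K : Λ.ι ⊕ {v // v ∈ U2} → Subgroup A' :=
    Sum.elim (fun i => (Q i).subgroupOf A') (fun v => (E v.1).subgroupOf A')
  have hK0 : ∀ j, (K j).index ≠ 0 := by
    rintro (i | v)
    · have h1 : (Q i).FiniteIndex := ⟨hQ0 i⟩
      have h2 : ((Q i).subgroupOf A').FiniteIndex := inferInstance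
      exact h2.index_ne_zero
    · have h1 := (hE v.1 v.2).1
      intro h
      apply h1
      have h2 : (E v.1).relIndex A' = 0 := h
      exact Subgroup.relIndex_eq_zero_of_le_right (iInf_le _ v) h2
  have hK1 : ∏ j, (K j).index ≤
      (∏ i, (if U i then 1 else lb F (Λ.u i))) * 2 ^ ∑ v ∈ U2, deg2 v := by
    rw [Fintype.prod_sum_type]
    refine Nat.mul_le_mul ?_ ?_
    · refine Finset.prod_le_prod' fun i _ => ?_
      refine le_trans ?_ (hQ1 i)
      change (Q i).relIndex A' ≤ (Q i).index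
      rw [← Subgroup.relIndex_top_right (Q i)]
      refine Subgroup.relIndex_le_of_le_right le_top ?_
      rw [Subgroup.relIndex_top_right]
      exact hQ0 i
    · rw [← Finset.prod_pow_eq_pow_sum, ← Finset.prod_coe_sort U2 (fun v => 2 ^ deg2 v)]
      refine Finset.prod_le_prod' fun v _ => ?_
      refine le_trans ?_ (hE v.1 v.2).2.1
      change (E v.1).relIndex A' ≤ (E v.1).relIndex (EvenAt v.1)
      exact Subgroup.relIndex_le_of_le_right (iInf_le _ v) (hE v.1 v.2).1
  have hKQ : ∀ x : A', x ∈ (⨅ j, K j) → ∀ i, (x : Fˣ) ∈ Q i := by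
    intro x hx i
    rw [Subgroup.mem_iInf] at hx
    exact Subgroup.mem_subgroupOf.1 (hx (Sum.inl i))
  have hKE : ∀ x : A', x ∈ (⨅ j, K j) → ∀ v ∈ U2, (x : Fˣ) ∈ E v := by
    intro x hx v hv
    rw [Subgroup.mem_iInf] at hx
    exact Subgroup.mem_subgroupOf.1 (hx (Sum.inr ⟨v, hv⟩))
  let I0 : Finset Λ.ι := Finset.univ.filter (fun i => ¬ U i)
  have hI0 : ∀ i, i ∈ I0 ↔ ¬ U i := fun i => by
    change i ∈ Finset.univ.filter (fun i => ¬ U i) ↔ _
    rw [Finset.mem_filter]
    exact and_iff_right (Finset.mem_univ i)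
  let lam0 : Fˣ →* G := ∏ i ∈ I0, Λ.L i
  have hlam0 : ∀ x, lam0 x = ∏ i ∈ I0, Λ.L i x := fun x => MonoidHom.finset_prod_apply _ _ x
  let lam : A' →* G := lam0.comp A'.subtype
  have hlam : ∀ x : A', lam x = ∏ i ∈ I0, Λ.L i x := fun x => hlam0 x
  have hev : ∀ x : Fˣ, (∀ v, Unramified H v → Even (prin x v)) → lam0 x = 1 := by
    intro x hx
    rw [hlam0]
    have h1 : ∏ i ∈ I0, Λ.L i x = ∏ i, Λ.L i x := by
      refine Finset.prod_subset (Finset.subset_univ _) fun i _ hi => ?_
      have hU : U i := by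
        by_contra hU
        exact hi ((hI0 i).2 hU)
      obtain ⟨w, hw, hu⟩ := hU
      exact Λ.unr i w hw hu _ (hx _ hu)
    rw [h1, Λ.prod]
    exact fr_even D hG _ fun v hv => hx v
      (Pool.Agent.H509.Rec.unr_of_squarefree (D.unramified v hv))
  -- the signs
  choose z hz1 hz2 hz3 using fun φ : {φ : F →+* ℝ // SplitR H φ} => hx φ.1 φ.2
  have hze : ∀ (s : Finset {φ : F →+* ℝ // SplitR H φ}) v, Unramified H v →
      (∏ φ ∈ s, z φ) ∈ EvenAt v := fun s v hv =>
    Subgroup.prod_mem (EvenAt v) fun φ _ => hz3 φ v hv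
  have hsig := sign_prod (fun φ : {φ : F →+* ℝ // SplitR H φ} => φ.1) z hz1
    (fun a b hab => hz2 b a.1 (fun h => hab (Subtype.ext h)) a.2)
  have hA : Nat.card (Finset {φ : F →+* ℝ // SplitR H φ}) * Nat.card lam.range ^ 2 ≤
      (⨅ j, K j).index := by
    refine sq_le_index3 lam (⨅ j, K j) (Subgroup.index_iInf_ne_zero hK0) ?_
      (((MonoidHom.fst Fˣ Hˣ).comp (YY F H).subtype).codRestrict A' fun y => (hA' _).2 fun v hv =>
        even_sq (mem_YY.1 y.2) v ((hU2 v).1 hv).2) ?_
      (fun γ => (kum (γ : G) : YY F H →* H)) ?_ ?_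
      (fun s => ⟨∏ φ ∈ s, z φ, (hA' _).2 fun v hv => hze s v ((hU2 v).1 hv).2⟩) ?_ ?_
    · intro x hx
      rw [MonoidHom.mem_ker, hlam]
      exact Finset.prod_eq_one fun i hi => (hQ2 i ((hI0 i).1 hi)).1 x (hKQ x hx i)
    · rintro x ⟨y, rfl⟩
      rw [MonoidHom.mem_ker]
      exact hev _ fun v hv => even_sq (mem_YY.1 y.2) v hv
    · intro γ γ' h
      exact Subtype.ext (kum_inj (F := F) (H := H) hG h)
    · intro γ y hy
      have hy1 : ∀ i, (y : Fˣ × Hˣ).1 ∈ Q i := hKQ _ hy
      have hy2 : algebraMap F H ((y : Fˣ × Hˣ).1 : F) = ((y : Fˣ × Hˣ).2 : H) ^ 2 :=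
        congrArg Units.val (mem_YY.1 y.2)
      obtain ⟨g, a, rfl⟩ := γ
      change kum (lam a) y = 1
      have h0 : ∀ i ∈ I0, Λ.L i a • ((y : Fˣ × Hˣ).2 : H) = ((y : Fˣ × Hˣ).2 : H) := by
        intro i hi
        have hd := Λ.dec i a
        have hq := hQ2 i ((hI0 i).1 hi)
        rcases hw : Λ.u i with w | w
        · rw [hw] at hd
          exact arch_fix hy2 (fun φ hφ => hq.2.2 w hw _ (hy1 i) φ hφ) hd
        · rw [hw] at hd
          exact fin_fix hy2 (hq.2.1 w hw _ (hy1 i)) hd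
      have h1 : lam a • ((y : Fˣ × Hˣ).2 : H) = ((y : Fˣ × Hˣ).2 : H) := by
        rw [hlam]
        have h2 : ∏ i ∈ I0, Λ.L i a ∈ MulAction.stabilizer G ((y : Fˣ × Hˣ).2 : H) :=
          Subgroup.prod_mem _ fun i hi => MulAction.mem_stabilizer_iff.2 (h0 i hi)
        exact MulAction.mem_stabilizer_iff.1 h2
      rw [kum_apply, h1, div_self (Units.ne_zero _)]
    · intro s
      exact hev _ fun v hv => hze s v hv
    · intro s s' y hy
      have hy1 := hKQ _ hy
      have hy3 := hKE _ hy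
      have hb : ∀ v, Unramified H v →
          (∏ φ ∈ s, z φ)⁻¹ * (∏ φ ∈ s', z φ) ∈ EvenAt v := fun v hv =>
        (EvenAt v).mul_mem ((EvenAt v).inv_mem (hze s v hv)) (hze s' v hv)
      have hkey : ∀ φ : {φ : F →+* ℝ // SplitR H φ},
          0 < φ.1 (((∏ φ ∈ s, z φ)⁻¹ * (∏ φ ∈ s', z φ) : Fˣ) : F) := by
        intro φ
        refine key (H := H) (z φ) φ.1 φ.2 (hz1 φ) (hz2 φ) (hz3 φ) _ hb (y : Fˣ × Hˣ).1
          (y : Fˣ × Hˣ).2 (mem_YY.1 y.2) ?_ ?_ ?_
        · intro v hv
          obtain ⟨i, w, hw, rfl⟩ := exists_index D Λ v hv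
          refine (hQ2 i ?_).2.1 w hw _ (hy1 i)
          rintro ⟨w', hw', hu'⟩
          rw [hw] at hw'
          obtain rfl := Sum.inr_injective hw'
          exact hv hu'
        · intro v hv2 hv
          have h1 := (hU2 v).2 ⟨hv2, hv⟩
          exact (hE v h1).2.2 _ (hy3 v h1)
        · intro φ' hφ'
          obtain ⟨i, w, hw, hwv⟩ := exists_index_inf D Λ
            (InfinitePlace.mk ((algebraMap ℝ ℂ).comp φ')) (isReal_mk φ')
            (complex_of_not_split hφ')
          refine (hQ2 i ?_).2.2 w hw _ (hy1 i) φ' hwv.symm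
          rintro ⟨w', hw', -⟩
          rw [hw] at hw'
          exact absurd hw' (by simp)
      ext φ
      have h1 := hkey φ
      rw [Units.val_mul, map_mul, Units.val_inv_eq_inv_val, map_inv₀] at h1
      have h2 := hsig s φ
      have h3 := hsig s' φ
      by_cases h4 : φ ∈ s
      · by_cases h5 : φ ∈ s'
        · exact ⟨fun _ => h5, fun _ => h4⟩
        · exact absurd h1 (not_lt.2 (mul_neg_of_neg_of_pos (inv_lt_zero.2 (h2.1 h4)) (h3.2 h5)).le)
      · by_cases h5 : φ ∈ s'
        · exact absurd h1 (not_lt.2 (mul_neg_of_pos_of_neg (inv_pos.2 (h2.2 h4)) (h3.1 h5)).le)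
        · exact ⟨fun h => absurd h h4, fun h => absurd h h5⟩
  -- the generators
  let P : Option Λ.ι → Subgroup G := fun o => match o with
    | none => lam.range
    | some i => if U i then dg (Λ.u i) else ⊥
  have hPn : P none = lam.range := rfl
  have hPs : ∀ i, P (some i) = if U i then dg (Λ.u i) else ⊥ := fun i => rfl
  have hSg : Sg D ≤ ⨆ o, P o := by
    refine (Subgroup.closure_le _).2 ?_
    rintro γ ⟨-, w, hw, hγ⟩
    by_cases hj : ∃ j, Conj G w (D.w j)
    · obtain ⟨j, hj⟩ := hj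
      have h1 : γ = 1 := D.splits j γ (Pool.Agent.H509.E3.fixes_conj hj hγ)
      rw [h1]
      exact Subgroup.one_mem _
    · push Not at hj
      obtain ⟨i, hi⟩ := Λ.all w hw hj
      have hγi : Fixes (Λ.u i) γ := Pool.Agent.H509.E3.fixes_conj hi hγ
      by_cases hU : U i
      · have h1 : γ ∈ P (some i) := by
          rw [hPs, if_pos hU]
          exact mem_dg.2 hγi
        exact (le_iSup P (some i)) h1
      · obtain ⟨x, hx, -⟩ := Λ.approx (Pi.mulSingle i γ) (fun i' => by
          by_cases hi' : i' = i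
          · subst hi'
            rw [Pi.mulSingle_eq_same]
            exact hγi
          · rw [Pi.mulSingle_eq_of_ne hi']
            exact mem_dg.1 (one_mem (dg (G := G) (Λ.u i')))) ∅ (Finset.disjoint_empty_right _)
          (fun _ => 0)
        obtain ⟨x', hx1, hx2⟩ := exists_rep D Λ U2 (fun v hv => ((hU2 v).1 hv).2) x
        have h1 : γ ∈ P none := by
          refine ⟨⟨x', (hA' x').2 hx1⟩, ?_⟩
          rw [hlam, Finset.prod_eq_single i]
          · change Λ.L i x' = γ
            rw [hx2 i hU, hx, Pi.mulSingle_eq_same]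
          · intro i' hi'' hi'
            change Λ.L i' x' = 1
            rw [hx2 i' ((hI0 i').1 hi''), hx, Pi.mulSingle_eq_of_ne hi']
          · intro h2
            exact absurd ((hI0 i).2 hU) h2
        exact (le_iSup P none) h1
  have hB : Nat.card (Sg D) ≤ Nat.card lam.range * ∏ i, Nat.card (P (some i)) := by
    refine (Pool.Agent.H509.E3.card_le_prod P (Sg D) hSg).trans (le_of_eq ?_)
    rw [Fintype.prod_option]
  have hC : Nat.card (Finset {φ : F →+* ℝ // SplitR H φ}) =
      2 ^ Nat.card {φ : F →+* ℝ // SplitR H φ} := by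
    let _ := Fintype.ofFinite {φ : F →+* ℝ // SplitR H φ}
    rw [Nat.card_eq_fintype_card, Nat.card_eq_fintype_card, Fintype.card_finset]
  rw [hC] at hA
  set k := Nat.card {φ : F →+* ℝ // SplitR H φ} with hk
  calc 2 ^ k * Nat.card (Sg D) ^ 2
      ≤ 2 ^ k * (Nat.card lam.range * ∏ i, Nat.card (P (some i))) ^ 2 :=
        Nat.mul_le_mul_left _ (Nat.pow_le_pow_left hB 2)
    _ = (2 ^ k * Nat.card lam.range ^ 2) * ∏ i, Nat.card (P (some i)) ^ 2 := by
        rw [mul_pow, Finset.prod_pow, mul_assoc]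
    _ ≤ ((∏ i, (if U i then 1 else lb F (Λ.u i))) * 2 ^ ∑ v ∈ U2, deg2 v) *
          ∏ i, (if U i then 4 else 1) := by
        refine Nat.mul_le_mul ?_ ?_
        · exact (hA.trans (Subgroup.index_iInf_le K)).trans hK1
        · refine Finset.prod_le_prod' fun i _ => ?_
          by_cases hU : U i
          · rw [hPs, if_pos hU, if_pos hU]
            obtain ⟨w, hw, hu⟩ := hU
            rw [hw]
            have h1 := dg_unram (G := G) hG w hu
            calc _ ≤ 2 ^ 2 := Nat.pow_le_pow_left h1 2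
              _ = 4 := rfl
          · rw [hPs, if_neg hU, if_neg hU, Subgroup.card_bot, one_pow]
    _ = (∏ i, lb F (Λ.u i)) * 2 ^ ∑ v ∈ U2, deg2 v := by
        rw [mul_right_comm, ← Finset.prod_mul_distrib]
        congr 1
        refine Finset.prod_congr rfl fun i _ => ?_
        by_cases hU : U i
        · rw [if_pos hU, if_pos hU, hlbU i hU, one_mul]
        · rw [if_neg hU, if_neg hU, mul_one]

end Pool.Agent.H896.SG
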