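import Pool.Agent.H896.SG.Cases5
import Pool.Agent.H896.SG.IsoC

/-!
# The bound for fields which are not maximal
-/

set_option autoImplicit false
set_option linter.unusedSectionVars false
set_option linter.deprecated false

open NumberField IsDedekindDomain Filter Topology Module

noncomputable section

namespace Pool.Agent.H896.SG

open Pool.Agent.BT9
open Pool.Agent.Q92.AR (Dv prin Pr Ray nmD nu up sD puD Cong Pos frob IsFrobenius Unramified Ram art
  prin_mul prin_one prin_inv frob_spec)
open Pool.Agent.K3h30.RS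
open Pool.Agent.Q20.EX (Inert Split)
open Pool.Agent.STk (two_finite sum_deg_le)
open Pool.Agent.H896.SE (NearSq)

section
variable {F E : Type} [Field F] [NumberField F] [Field E] [NumberField E] [Algebra F E]
  [IsGalois F E]

/-- a real place at which a faithful character is not ramified extends -/
theorem ext_real (ψ : (E ≃ₐ[F] E) →* ℂˣ) (hψ : Function.Injective ψ) (φ : F →+* ℝ)
    (h : ¬ RamR ψ φ) : ∃ χ : E →+* ℝ, χ.comp (algebraMap F E) = φ := by
  obtain ⟨χ, hχ⟩ := Pool.Agent.H389.BT.real_ext (M := E) (⊤ : IntermediateField F E) φ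
    (fun ι g hι hg x => by
      have h1 : ψ g = 1 := by
        by_contra h2
        exact h ⟨ι, g, hι, hg, h2⟩
      have h2 : g = 1 := hψ (by rw [h1, map_one])
      rw [h2]
      rfl)
  refine ⟨χ.comp (IntermediateField.topEquiv (F := F) (E := E)).symm.toAlgHom.toRingHom, ?_⟩
  rw [← hχ]
  ext x
  change χ ((IntermediateField.topEquiv (F := F) (E := E)).symm (algebraMap F E x)) =
    χ (algebraMap F (⊤ : IntermediateField F E) x)
  rw [AlgEquiv.commutes]

theorem unr_of_notRam (ψ : (E ≃ₐ[F] E) →* ℂˣ) (hψ : Function.Injective ψ)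
    (v : HeightOneSpectrum (𝓞 F)) (h : ¬ RamAt ψ v) : Unramified E v := by
  refine Pool.Agent.Q111.EX.unram_of_inert (E := E) (M := E) v fun w hw g hg x => ?_
  have h1 : ψ g = 1 := by
    by_contra h2
    exact h ⟨w, g, hw, hg, h2⟩
  have h2 : g = 1 := hψ (by rw [h1, map_one])
  rw [h2]
  rfl

theorem deg_two (ψ : (E ≃ₐ[F] E) →* ℂˣ) (hψ : Function.Injective ψ) (hψ2 : ∀ g, ψ g * ψ g = 1)
    (z : F) (e : E) (he : algebraMap F E z = e ^ 2) (hs : ¬ IsSquare z) :
    Module.finrank F E = 2 := by
  have hpm : ∀ σ, ψ σ = 1 ∨ ψ σ = -1 := by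
    intro σ
    have h2 : ((ψ σ : ℂˣ) : ℂ) * (ψ σ : ℂˣ) = 1 := by
      rw [← Units.val_mul, hψ2, Units.val_one]
    rcases mul_self_eq_one_iff.1 h2 with h3 | h3
    · exact Or.inl (Units.ext h3)
    · right
      apply Units.ext
      rw [h3, Units.val_neg, Units.val_one]
  have hσ : ∃ σ : E ≃ₐ[F] E, σ ≠ 1 := by
    by_contra hall
    push Not at hall
    have h1 : e ∈ Set.range (algebraMap F E) :=
      (IsGalois.mem_range_algebraMap_iff_fixed e).2 fun g => by rw [hall g]; rfl
    obtain ⟨k, hk⟩ := h1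
    apply hs
    refine ⟨k, (algebraMap F E).injective ?_⟩
    rw [he, ← hk, map_mul, pow_two]
  obtain ⟨σ, hσ⟩ := hσ
  rw [← IsGalois.card_aut_eq_finrank F E, Nat.card_eq_two_iff]
  refine ⟨1, σ, fun h => hσ h.symm, ?_⟩
  rw [Set.eq_univ_iff_forall]
  intro τ
  rcases hpm τ with h | h
  · left
    exact hψ (by rw [h, map_one])
  · right
    rw [Set.mem_singleton_iff]
    refine hψ (by rw [h, (hpm σ).resolve_left fun h3 => hσ (hψ (by rw [h3, map_one]))])

end

/-- `E / F` is unramified at all prime ideals, the prime ideals ramified in `H` split in `E`, and the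
real places which become complex in `H` stay real in `E`. -/
def SplitRam (F H E : Type) [Field F] [NumberField F] [Field H] [NumberField H] [Algebra F H]
    [Field E] [NumberField E] [Algebra F E] : Prop :=
  (∀ v : HeightOneSpectrum (𝓞 F), Squarefree (v.asIdeal.map (algebraMap (𝓞 F) (𝓞 E)))) ∧
    (∀ v : HeightOneSpectrum (𝓞 F), ¬ Squarefree (v.asIdeal.map (algebraMap (𝓞 F) (𝓞 H))) →
      ¬ (v.asIdeal.map (algebraMap (𝓞 F) (𝓞 E))).IsPrime) ∧
    ∀ φ : F →+* ℝ, (¬ ∃ χ : H →+* ℝ, χ.comp (algebraMap F H) = φ) →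
      ∃ χ : E →+* ℝ, χ.comp (algebraMap F E) = φ

/-- For some `x ∈ F^*`, with even valuations at the prime ideals which are unramified in `H`, the square
root of `x` is not in `H E` for `E = F` and for all quadratic extensions `E` as in `SplitRam`. (For an
extension `H / F` of exponent two: `√x` is in `H E` if and only if `x y` is a square in `E` for some
`y ∈ F^*` which is a square in `H`.) -/
def NotMax (F H : Type) [Field F] [NumberField F] [Field H] [NumberField H] [Algebra F H] : Prop :=
  ∃ x : F, x ≠ 0 ∧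
    (∀ v : HeightOneSpectrum (𝓞 F), Squarefree (v.asIdeal.map (algebraMap (𝓞 F) (𝓞 H))) →
      EvenVal v x) ∧
    ∀ y : F, y ≠ 0 → IsSquare (algebraMap F H y) → ¬ IsSquare (x * y) ∧
      ∀ (E : Type) [Field E] [NumberField E] [Algebra F E], Module.finrank F E = 2 →
        SplitRam F H E → ¬ IsSquare (algebraMap F E (x * y))

variable {F H G : Type} [Field F] [NumberField F] [Field H] [NumberField H] [Algebra F H]

theorem square_or (z : Fˣ) (h1 : ∀ v, ¬ Unramified H v → LocSq v z)
    (h2 : ∀ v : HeightOneSpectrum (𝓞 F), (2 : 𝓞 F) ∈ v.asIdeal → Unramified H v → NearSq v z)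
    (h3 : ∀ v, Unramified H v → Even (prin z v))
    (h4 : ∀ φ : F →+* ℝ, ¬ SplitR H φ → 0 < φ (z : F)) :
    IsSquare (z : F) ∨ ∃ (E : Type) (_ : Field E) (_ : NumberField E) (_ : Algebra F E),
      Module.finrank F E = 2 ∧ SplitRam F H E ∧ IsSquare (algebraMap F E (z : F)) := by
  by_cases hs : IsSquare (z : F)
  · exact Or.inl hs
  right
  obtain ⟨E, _, _, _, _, e, ψ, he, hgen, hψ, hψ2⟩ := exists_quad _ hs
  have hr : ∀ v, ¬ RamAt ψ v := by
    intro v
    by_cases hv : Unramified H v
    · by_cases hv2 : (2 : 𝓞 F) ∈ v.asIdeal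
      · exact not_ram_near ψ z e he hgen v (h2 v hv2 hv)
      · exact not_ram_even ψ z e he hgen v hv2 (h3 v hv)
    · exact not_ram_near ψ z e he hgen v (h1 v hv).near
  have hun : ∀ v, Unramified E v := fun v => unr_of_notRam ψ hψ v (hr v)
  have hdeg := deg_two ψ hψ hψ2 (z : F) e he hs
  refine ⟨E, inferInstance, inferInstance, inferInstance, hdeg,
    ⟨fun v => Pool.Agent.H788.BT.squarefree_of_unr (hun v), fun v hv => ?_, fun φ hφ => ?_⟩,
    ⟨e, by rw [he, pow_two]⟩⟩
  · have hv' : ¬ Unramified H v := fun h => hv (Pool.Agent.H788.BT.squarefree_of_unr h)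
    exact not_prime_of_split hdeg (Pool.Agent.Q111.EX.split_of_inj ψ hψ (hun v) (by
      rw [frob_one z e he hgen v (h1 v hv'), map_one]))
  · exact ext_real ψ hψ φ (ramR_pos ψ z e he hgen φ (h4 φ hφ))

variable [CommGroup G] [Finite G] [MulSemiringAction G H] [IsGaloisGroup G F H]

/-- the bound for the decomposition groups -/
theorem card_of_notMax (D : RubinData F H G) (hG : ∀ g : G, g * g = 1) (hx : NotMax F H)
    (hsum : Module.finrank ℚ F ≤ 2 + Nat.card (RC F H)) : Nat.card (Sg D) ≤ 2 ^ sc D := by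
  classical
  obtain ⟨Λ⟩ := all_lam F H G D hG
  obtain ⟨x, hx0, hxe, hxE⟩ := hx
  let T2 : Finset (HeightOneSpectrum (𝓞 F)) := (two_finite (K := F)).toFinset
  have hT2 : ∀ v, v ∈ T2 ↔ (2 : 𝓞 F) ∈ v.asIdeal := fun v => Set.Finite.mem_toFinset _
  set x' : Fˣ := Units.mk0 x hx0 with hx'
  have hxe' : ∀ v, Unramified H v → Even (prin x' v) := fun v hv =>
    even_of_evenVal (hxe v (Pool.Agent.H788.BT.squarefree_of_unr hv))
  let f : Bool → Fˣ := fun b => if b then x' else 1
  have hf : ∀ s v, Unramified H v → Even (prin (f s) v) := by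
    rintro (_ | _) v hv
    · change Even (prin (1 : Fˣ) v)
      rw [prin_one, Finsupp.zero_apply]
      exact Even.zero
    · exact hxe' v hv
  have h1 := isoC D hG Λ (T2.filter fun v => Unramified H v) (fun v => by
    rw [Finset.mem_filter, hT2]) f hf (by
      intro s s' y h hy hl hn hp
      by_contra hne
      have hy' : IsSquare (algebraMap F H (y : F)) :=
        ⟨(h : H), (congrArg Units.val hy).trans (pow_two _)⟩
      have hz := square_or (H := H) ((f s)⁻¹ * f s' * y) hl hn (fun v hv => by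
          rw [prin_mul, Finsupp.add_apply, prin_mul, Finsupp.add_apply, prin_inv,
            Finsupp.neg_apply]
          exact ((hf s v hv).neg.add (hf s' v hv)).add (even_sq hy v hv)) hp
      have hcon := hxE (y : F) y.ne_zero hy'
      -- `x y` is `z` times a square
      have hzx : ∃ t : F, x * (y : F) = (((f s)⁻¹ * f s' * y : Fˣ) : F) * t ^ 2 := by
        rcases s with _ | _ <;> rcases s' with _ | _
        · exact absurd rfl hne
        · refine ⟨1, ?_⟩
          change x * (y : F) = (((1 : Fˣ)⁻¹ * x' * y : Fˣ) : F) * 1 ^ 2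
          rw [inv_one, one_mul, Units.val_mul, one_pow, mul_one]
          rfl
        · refine ⟨x, ?_⟩
          change _ = (((x' : Fˣ)⁻¹ * 1 * y : Fˣ) : F) * x ^ 2
          rw [mul_one, Units.val_mul, Units.val_inv_eq_inv_val]
          change x * (y : F) = x⁻¹ * (y : F) * x ^ 2
          field_simp
        · exact absurd rfl hne
      obtain ⟨t, ht⟩ := hzx
      rcases hz with hz | ⟨E, _, _, _, hE1, hE2, hE3⟩
      · apply hcon.1
        rw [ht]
        exact hz.mul (IsSquare.sq t)
      · apply hcon.2 E hE1 hE2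
        rw [ht, map_mul, map_pow]
        exact hE3.mul (IsSquare.sq _))
  rw [Nat.card_eq_fintype_card, Fintype.card_bool] at h1
  have h2 : 2 ^ 1 * Nat.card (Sg D) ^ 2 ≤ (letI := Λ.fin; ∏ i, lb F (Λ.u i)) *
      2 ^ ∑ v ∈ T2.filter (fun v => Unramified H v), deg2 v := by
    rw [show (2 : ℕ) ^ 1 = 2 from rfl]
    exact h1
  refine wild3 D hG Λ 1 _ h2 (T2.filter fun v => ¬ Unramified H v)
    (fun v hv hr => by
      rw [Finset.mem_filter, hT2]
      exact ⟨hv, hr⟩) ?_
  rw [Finset.sum_filter_add_sum_filter_not]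
  exact (sum_deg_le fun v hv => (hT2 v).1 hv).trans hsum

end Pool.Agent.H896.SG
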