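import Pool.Agent.H896.SG.RealQuad

/-!
# The signature condition with the prime above two
-/

set_option autoImplicit false

open NumberField IsDedekindDomain

noncomputable section

namespace Pool.Agent.H896.SG

open Pool.Agent.BT9
open Pool.Agent.Q92.AR (prin Unramified)
open Pool.Agent.K3h30.RS

variable {F H G : Type} [Field F] [NumberField F] [Field H] [NumberField H] [Algebra F H]
  [CommGroup G] [Finite G] [MulSemiringAction G H] [IsGaloisGroup G F H]

/-- all signatures, with even valuations except at the prime ideal above two, if there is only one -/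
theorem card_of_all (D : RubinData F H G) (hG : ∀ g : G, g * g = 1)
    (hF : ∀ v : InfinitePlace F, v.IsReal)
    (h : ∀ s : Set (F →+* ℝ), ∃ x : F, x ≠ 0 ∧ (∀ φ : F →+* ℝ, φ x < 0 ↔ φ ∈ s) ∧
      ∀ v : HeightOneSpectrum (𝓞 F), ((2 : 𝓞 F) ∈ v.asIdeal →
        ∃ w : HeightOneSpectrum (𝓞 F), w ≠ v ∧ (2 : 𝓞 F) ∈ w.asIdeal) → EvenVal v x) :
    Nat.card (Sg D) ≤ 2 ^ sc D := by
  classical
  by_cases h2 : ∃ v : HeightOneSpectrum (𝓞 F), (2 : 𝓞 F) ∈ v.asIdeal ∧
    ∀ w : HeightOneSpectrum (𝓞 F), (2 : 𝓞 F) ∈ w.asIdeal → w = v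
  · obtain ⟨v, hv, hu⟩ := h2
    by_cases hr : Unramified H v
    · refine Pool.Agent.BT9.card_of_wild D hG ⟨∅, fun w hw hw' => ?_, ?_⟩
      · exfalso
        rw [hu w hw] at hw'
        exact hw' (Pool.Agent.H788.BT.squarefree_of_unr hr)
      · rw [Finset.sum_empty]
        exact Nat.zero_le _
    · refine card_of_signs D hG hF (Or.inr (Or.inr fun χ => ?_))
      obtain ⟨x, hx0, hx, hxe⟩ := h {χ.comp (algebraMap F H)}
      refine ⟨x, (hx (χ.comp (algebraMap F H))).2 rfl, fun χ' hne => ?_, fun w hw =>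
        hxe w fun hw2 => ?_⟩
      · have h1 : ¬ (χ'.comp (algebraMap F H)) x < 0 := fun h2 => hne ((hx _).1 h2)
        exact lt_of_le_of_ne (not_lt.1 h1) ((map_ne_zero (χ'.comp (algebraMap F H))).2 hx0).symm
      · exfalso
        rw [hu w hw2] at hw
        exact hr (Pool.Agent.H509.Rec.unr_of_squarefree hw)
  · refine card_of_signs2 D hG hF (Or.inr (Or.inl fun s => ?_))
    obtain ⟨x, hx0, hx, hxe⟩ := h s
    refine ⟨x, hx0, hx, fun v => hxe v fun hv => ?_⟩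
    by_contra hcon
    push Not at hcon
    refine h2 ⟨v, hv, fun w hw => ?_⟩
    by_contra hne
    exact hcon w hne hw

open Classical in
/-- the forms of the hypothesis -/
theorem card_of_cases4 (D : RubinData F H G) (hG : ∀ g : G, g * g = 1)
    (h : Nat.card (Subgroup.closure {γ : G | ∃ w : Place H,
          InS (D.S : Set (HeightOneSpectrum (𝓞 F))) w ∧ Fixes w γ}) ≤
        2 ^ (Fintype.card (InfinitePlace F) + D.S.card - D.r) ∨
      (∃ W : Finset (HeightOneSpectrum (𝓞 F)), (∀ v : HeightOneSpectrum (𝓞 F),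
          (2 : 𝓞 F) ∈ v.asIdeal → ¬ Squarefree (v.asIdeal.map (algebraMap (𝓞 F) (𝓞 H))) → v ∈ W) ∧
        ∑ v ∈ W, deg2 v ≤ 1 + Nat.card {v : InfinitePlace F // v.IsReal ∧
          ∀ w : InfinitePlace H, w.comap (algebraMap F H) = v → w.IsComplex}) ∨
      ((∀ v : InfinitePlace F, v.IsReal) ∧
        ((∀ χ χ' : H →+* ℝ, χ.comp (algebraMap F H) = χ'.comp (algebraMap F H)) ∨
        (∀ s : Set (F →+* ℝ), ∃ x : F, x ≠ 0 ∧ (∀ φ : F →+* ℝ, φ x < 0 ↔ φ ∈ s) ∧
          ∀ v : HeightOneSpectrum (𝓞 F), ((2 : 𝓞 F) ∈ v.asIdeal →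
            ∃ w : HeightOneSpectrum (𝓞 F), w ≠ v ∧ (2 : 𝓞 F) ∈ w.asIdeal) → EvenVal v x) ∨
        (∀ χ : H →+* ℝ, ∃ x : F, χ (algebraMap F H x) < 0 ∧
          (∀ χ' : H →+* ℝ, χ'.comp (algebraMap F H) ≠ χ.comp (algebraMap F H) →
            0 < χ' (algebraMap F H x)) ∧
          ∀ v : HeightOneSpectrum (𝓞 F),
            Squarefree (v.asIdeal.map (algebraMap (𝓞 F) (𝓞 H))) → EvenVal v x) ∨
        (Module.finrank ℚ F = 2 ∧ ∃ (a b : ℤ) (d : F), IsCoprime a b ∧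
          (d ^ 2 = a ^ 2 + b ^ 2 ∨ d ^ 2 = a ^ 2 + 2 * b ^ 2) ∧
          d ∉ Set.range (algebraMap ℚ F))))) :
    Nat.card (Sg D) ≤ 2 ^ sc D := by
  rcases h with h | h | ⟨h1, h2 | h2 | h2 | ⟨h2, a, b, d, hab, hd, hdQ⟩⟩
  · exact Pool.Agent.BT9.card_of_cases D hG (Or.inl h)
  · exact Pool.Agent.BT9.card_of_cases D hG (Or.inr (Or.inl h))
  · exact card_of_signs2 D hG h1 (Or.inl h2)
  · exact card_of_all D hG h1 h2
  · exact card_of_signs2 D hG h1 (Or.inr (Or.inr h2))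
  · exact card_of_sums D hG h1 h2 hab hd hdQ

end Pool.Agent.H896.SG
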