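import Pool.Agent.H896.SE.Sub
import Pool.Agent.H896.SG.Art
import Pool.Agent.H509.BT.SUR

/-!
# The quadratic extension generated by a square root
-/

set_option autoImplicit false
set_option linter.unusedSectionVars false
set_option linter.deprecated false

open NumberField IsDedekindDomain Filter Topology Module

noncomputable section

namespace Pool.Agent.H896.SG

open Pool.Agent.BT9
open Pool.Agent.Q92.AR (Dv prin Pr Ray nmD nu up sD puD Cong Pos frob IsFrobenius Unramified Ram art
  prin_mul prin_one prin_inv frob_spec)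
open Pool.Agent.K3h30.RS
open Pool.Agent.Q20.EX (Inert CongAt)
open Pool.Agent.STk (CG toCG toCG_smul)
open Pool.Agent.H509.Rec (eK eK_smul act_of_frob fixes_of_act fixes_of_conj exists_conj)
open Pool.Agent.H896.SE (NearSq inertia_fix)
open Pool.Agent.H788.BT (ram_fix smul_root val_inv)

/-- existence of the quadratic extension -/
theorem exists_quad {F : Type} [Field F] [NumberField F] (q : F) (hq : ¬ IsSquare q) :
    ∃ (E : Type) (_ : Field E) (_ : NumberField E) (_ : Algebra F E) (_ : IsAbelianGalois F E)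
      (h : E) (ψ : (E ≃ₐ[F] E) →* ℂˣ), algebraMap F E q = h ^ 2 ∧
      (∀ g : E ≃ₐ[F] E, g h = h → g = 1) ∧ Function.Injective ψ ∧ ∀ g, ψ g * ψ g = 1 := by
  let Ω := AlgebraicClosure F
  obtain ⟨a, ha⟩ := IsAlgClosed.exists_pow_nat_eq (algebraMap F Ω q) two_pos
  have hint : IsIntegral F a := Algebra.IsIntegral.isIntegral a
  let E := IntermediateField.adjoin F {a}
  have hfd : FiniteDimensional F E := IntermediateField.adjoin.finiteDimensional hint
  have hdeg : Module.finrank F E = 2 := by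
    change Module.finrank F (IntermediateField.adjoin F {a}) = 2
    rw [IntermediateField.adjoin.finrank hint]
    refine le_antisymm ?_ ?_
    · have h1 : minpoly F a ∣ (Polynomial.X ^ 2 - Polynomial.C q) := by
        apply minpoly.dvd
        simp [ha]
      have h2 : (Polynomial.X ^ 2 - Polynomial.C q : Polynomial F) ≠ 0 :=
        Polynomial.X_pow_sub_C_ne_zero two_pos q
      exact (Polynomial.natDegree_le_of_dvd h1 h2).trans
        (le_of_eq (Polynomial.natDegree_X_pow_sub_C))
    · rw [minpoly.two_le_natDegree_iff hint]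
      rintro ⟨k, hk⟩
      apply hq
      refine ⟨k, ?_⟩
      apply (algebraMap F Ω).injective
      rw [← ha, ← hk, map_mul, pow_two]
  have hquad : Algebra.IsQuadraticExtension F E := { finrank_eq_two' := hdeg }
  have hnf : NumberField E := NumberField.of_module_finite F E
  have hgal : IsGalois F E := inferInstance
  have hcyc : IsCyclic Gal(E/F) := by
    refine isCyclic_of_prime_card (p := 2) ?_
    rw [IsGalois.card_aut_eq_finrank, hdeg]
  have hab : IsAbelianGalois F E := IsAbelianGalois.of_isCyclic F E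
  have hcard : Nat.card Gal(E/F) = 2 := by
    rw [IsGalois.card_aut_eq_finrank, hdeg]
  obtain ⟨τ, hτ⟩ : ∃ τ : E ≃ₐ[F] E, τ ≠ 1 := by
    by_contra hcon
    push Not at hcon
    have h1 : Subsingleton Gal(E/F) := ⟨fun a b => (hcon a).trans (hcon b).symm⟩
    rw [Nat.card_of_subsingleton 1] at hcard
    exact absurd hcard (by norm_num)
  obtain ⟨ψ, hψ⟩ := Pool.Agent.H295.BT.inj_char (F := F) (K := E) (τ := τ) ⟨hdeg, hτ⟩
  have hψ2 : ∀ g, ψ g * ψ g = 1 := by
    intro g
    rw [← map_mul, ← pow_two, ← hcard, pow_card_eq_one', map_one]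
  refine ⟨E, inferInstance, hnf, inferInstance, hab, IntermediateField.AdjoinSimple.gen F a, ψ,
    ?_, ?_, hψ, hψ2⟩
  · apply (algebraMap E Ω).injective
    rw [← IsScalarTower.algebraMap_apply, ← ha, map_pow]
    rfl
  · intro g hg
    have h1 : (g : E →ₐ[F] E) = AlgHom.id F E := by
      refine (IntermediateField.adjoin.powerBasis hint).algHom_ext ?_
      rw [IntermediateField.adjoin.powerBasis_gen]
      exact hg
    ext z
    have h2 := DFunLike.congr_fun h1 z
    exact congrArg _ h2

/-- `x` is a square at `v` -/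
def LocSq {F : Type} [Field F] [NumberField F] (v : HeightOneSpectrum (𝓞 F)) (x : Fˣ) : Prop :=
  ∃ y : Fˣ, v.valuation F ((x : F) / (y : F) ^ 2 - 1) < v.valuation F 4

theorem val_four_le {F : Type} [Field F] [NumberField F] (v : HeightOneSpectrum (𝓞 F)) :
    v.valuation F 4 ≤ 1 := by
  have h := v.valuation_le_one (K := F) (4 : 𝓞 F)
  have e : algebraMap (𝓞 F) F 4 = 4 := map_ofNat (algebraMap (𝓞 F) F) 4
  rw [← e]
  exact h

theorem LocSq.near {F : Type} [Field F] [NumberField F] {v : HeightOneSpectrum (𝓞 F)} {x : Fˣ}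
    (h : LocSq v x) : NearSq v x := by
  obtain ⟨y, hy⟩ := h
  exact ⟨y, hy.le, hy.trans_le (val_four_le v)⟩

section
variable {F E : Type} [Field F] [NumberField F] [Field E] [NumberField E] [Algebra F E]
  [IsAbelianGalois F E]

theorem inert_mem {w : HeightOneSpectrum (𝓞 E)} {g : E ≃ₐ[F] E} (hg : Inert w g) :
    toCG F E g ∈ w.asIdeal.inertia (CG F E) := by
  intro z
  have h1 := hg z
  have h2 : g (z : E) - (z : E) = ((toCG F E g • z - z : 𝓞 E) : E) := rfl
  rw [h2] at h1
  exact (w.valuation_lt_one_iff_mem (K := E) _).1 h1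

/-- unramified at `v` if `x` is almost a square at `v` -/
theorem not_ram_near (ψ : (E ≃ₐ[F] E) →* ℂˣ) (x : Fˣ) (h : E)
    (hx : algebraMap F E (x : F) = h ^ 2) (hgen : ∀ g : E ≃ₐ[F] E, g h = h → g = 1)
    (v : HeightOneSpectrum (𝓞 F)) (hn : NearSq v x) : ¬ RamAt ψ v := by
  rintro ⟨w, g, hw, hg, hne⟩
  apply hne
  have h1 : toCG F E g • h = h := inertia_fix w x h hx (by rw [hw]; exact hn) _ (inert_mem hg)
  rw [hgen g h1, map_one]

/-- unramified at `v` if `v` does not divide two and the valuation of `x` is even -/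
theorem not_ram_even (ψ : (E ≃ₐ[F] E) →* ℂˣ) (x : Fˣ) (h : E)
    (hx : algebraMap F E (x : F) = h ^ 2) (hgen : ∀ g : E ≃ₐ[F] E, g h = h → g = 1)
    (v : HeightOneSpectrum (𝓞 F)) (h2 : (2 : 𝓞 F) ∉ v.asIdeal) (hn : Even (prin x v)) :
    ¬ RamAt ψ v := by
  rintro ⟨w, g, hw, hg, hne⟩
  apply hne
  have hin : ∀ z : 𝓞 E, w.valuation E (g (z : E) - (z : E)) < 1 := hg
  have hγ := inert_mem hg
  have hval : ∀ z : E, w.valuation E (g z) = w.valuation E z := fun z =>
    val_inv (Pool.Agent.H896.SE.fixes_of_inertia hγ) z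
  have hroot : g h = h ∨ g h = -h := by
    rw [← sq_eq_sq_iff_eq_or_eq_neg, ← map_pow, ← hx, g.commutes]
  rcases hroot with h1 | h1
  · rw [hgen g h1, map_one]
  exfalso
  obtain ⟨y, hy⟩ := Pool.Agent.H896.SE.exists_unit_sq v x hn
  have hov : Pool.Agent.TeamU.Over w v := by
    rw [← hw]
    rfl
  set b : E := algebraMap F E (y : F) with hb
  have hb0 : b ≠ 0 := by
    rw [hb]
    exact (map_ne_zero _).2 y.ne_zero
  set s : E := h / b with hs
  have hgs : g s = -s := by
    rw [hs, map_div₀, h1, hb, g.commutes, neg_div]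
  have hsv : w.valuation E s = 1 := by
    have h3 : s ^ 2 = algebraMap F E ((x : F) / (y : F) ^ 2) := by
      rw [map_div₀, map_pow, hx, hs, div_pow]
    have h4 : w.valuation E (s ^ 2) = 1 := by
      rw [h3, Pool.Agent.TeamU.val_over hov, hy, one_pow]
    rw [map_pow] at h4
    exact (pow_eq_one_iff_of_nonneg zero_le' two_ne_zero).1 h4
  obtain ⟨a, ha⟩ := Pool.Agent.H896.SE.exists_int w hsv.le
  have h7 : w.valuation E (g s - s) < 1 := by
    have e : g s - s = g (s - (a : E)) + ((g (a : E) - (a : E)) + ((a : E) - s)) := by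
      rw [map_sub]
      ring
    rw [e]
    refine (Valuation.map_add _ _ _).trans_lt (max_lt ?_ ?_)
    · rw [hval, Valuation.map_sub_swap]
      exact ha
    · exact (Valuation.map_add _ _ _).trans_lt (max_lt (hin a) ha)
  have h8 : g s - s = -(2 * s) := by
    rw [hgs]
    ring
  rw [h8, Valuation.map_neg, map_mul, hsv, mul_one] at h7
  have h9 : w.valuation E (algebraMap F E 2) < 1 := by
    rwa [map_ofNat]
  rw [Pool.Agent.TeamU.val_over hov] at h9
  have h10 : v.valuation F (2 : F) = 1 := by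
    have h3 : ¬ v.valuation F (algebraMap (𝓞 F) F 2) < 1 := fun h4 =>
      h2 ((v.valuation_lt_one_iff_mem (K := F) (2 : 𝓞 F)).1 h4)
    have h5 := v.valuation_le_one (K := F) (2 : 𝓞 F)
    have h6 := le_antisymm h5 (not_lt.1 h3)
    have e : algebraMap (𝓞 F) F 2 = 2 := map_ofNat (algebraMap (𝓞 F) F) 2
    rw [← e]
    exact h6
  rw [h10, one_pow] at h9
  exact lt_irrefl _ h9

/-- split at `v` if `x` is a square at `v` -/
theorem frob_one (x : Fˣ) (h : E)
    (hx : algebraMap F E (x : F) = h ^ 2) (hgen : ∀ g : E ≃ₐ[F] E, g h = h → g = 1)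
    (v : HeightOneSpectrum (𝓞 F)) (hn : LocSq v x) : frob E v = 1 := by
  obtain ⟨w, hw, hact⟩ := act_of_frob (frob_spec (M := E) v)
  have hf : Fixes (Sum.inr w : Place E) (eK F F E (CG F E) (frob E v)) := fixes_of_act hact
  obtain ⟨y, hy⟩ := hn
  have hov : Pool.Agent.TeamU.Over w v := by
    rw [← hw]
    rfl
  have hne : (v.asIdeal.ramificationIdx' w.asIdeal) ≠ 0 := by
    have hlo : w.asIdeal.LiesOver v.asIdeal := by
      rw [← hw]
      exact ⟨rfl⟩
    have hwm := w.isMaximal
    exact Ideal.IsDedekindDomain.ramificationIdx'_ne_zero_of_liesOver w.asIdeal v.ne_bot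
  have h1 := ram_fix (G := CG F E) (w := w) (x := x) (y := y) (h := h) hx (by
    have h2F : w.valuation E 2 ^ 2 =
        v.valuation F 4 ^ (v.asIdeal.ramificationIdx' w.asIdeal) := by
      have e0 : algebraMap F E 4 = 2 ^ 2 := by
        rw [map_ofNat]
        norm_num
      rw [← Pool.Agent.TeamU.val_over hov, e0, map_pow]
    rw [Pool.Agent.TeamU.val_over hov, h2F]
    exact pow_lt_pow_left₀ hy zero_le' hne) (val_inv hf)
  rw [eK_smul] at h1
  exact hgen _ h1

/-- ramified at the real places where `x` is negative -/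
theorem ramR_neg (ψ : (E ≃ₐ[F] E) →* ℂˣ) (hψ : Function.Injective ψ) (x : Fˣ) (h : E)
    (hx : algebraMap F E (x : F) = h ^ 2) (φ : F →+* ℝ) (hn : φ (x : F) < 0) : RamR ψ φ := by
  obtain ⟨ι, g, hι, hg⟩ := exists_conj (M := E) φ
  refine ⟨ι, g, hι, hg, fun h1 => ?_⟩
  have hg1 : g = 1 := hψ (by rw [h1, map_one])
  have h2 := hg h
  rw [hg1] at h2
  have h3 : ((ι h).im : ℂ) = 0 := by
    have h4 : (ι h).im = 0 := Complex.conj_eq_iff_im.1 h2.symm
    rw [h4]
    rfl
  have h4 : ι h = ((ι h).re : ℂ) := by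
    apply Complex.ext
    · rfl
    · have h5 : (ι h).im = 0 := Complex.conj_eq_iff_im.1 h2.symm
      rw [h5, Complex.ofReal_im]
  have h5 : (((ι h).re ^ 2 : ℝ) : ℂ) = ((φ (x : F) : ℝ) : ℂ) := by
    rw [← hι, hx, map_pow, Complex.ofReal_pow, ← h4]
  have h6 : (ι h).re ^ 2 = φ (x : F) := Complex.ofReal_injective h5
  rw [← h6] at hn
  exact absurd hn (not_lt.2 (sq_nonneg _))

/-- unramified at the real places where `x` is positive -/
theorem ramR_pos (ψ : (E ≃ₐ[F] E) →* ℂˣ) (x : Fˣ) (h : E)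
    (hx : algebraMap F E (x : F) = h ^ 2) (hgen : ∀ g : E ≃ₐ[F] E, g h = h → g = 1)
    (φ : F →+* ℝ) (hn : 0 < φ (x : F)) : ¬ RamR ψ φ := by
  rintro ⟨ι, g, hι, hg, hne⟩
  apply hne
  have h2 := hg h
  have h3 : ι h ^ 2 = ((φ (x : F) : ℝ) : ℂ) := by
    rw [← hι, hx, map_pow]
  have h4 : (ι h).im = 0 := by
    have h5 := congrArg Complex.im h3
    have h6 := congrArg Complex.re h3
    rw [pow_two, Complex.mul_im, Complex.ofReal_im] at h5
    rw [pow_two, Complex.mul_re, Complex.ofReal_re] at h6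
    have h7 : (ι h).re * (ι h).im = 0 := by linarith
    rcases mul_eq_zero.1 h7 with h8 | h8
    · exfalso
      rw [h8] at h6
      nlinarith [mul_self_nonneg (ι h).im]
    · exact h8
  have h5 : ι (g h) = ι h := by
    rw [h2]
    exact Complex.conj_eq_iff_im.2 h4
  rw [hgen g (ι.injective h5), map_one]

end

end Pool.Agent.H896.SG
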