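import Pool.Agent.H896.SG.Main2

/-!
# Real quadratic fields whose discriminant is a sum of two squares
-/

set_option autoImplicit false

open NumberField IsDedekindDomain

noncomputable section

namespace Pool.Agent.H896.SG

variable {F : Type} [Field F] [NumberField F]

open Pool.Agent.BT9
open Pool.Agent.Q92.AR (prin Unramified)
open Pool.Agent.K3h30.RS

/-- `(x)` is the square of an ideal if `x² = A x + B²` with coprime `A`, `B` -/
theorem evenVal_root {A B : ℤ} (hAB : IsCoprime A B) {x : F} (hx : x ^ 2 = A * x + B ^ 2)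
    (v : HeightOneSpectrum (𝓞 F)) : EvenVal v x := by
  have hint : IsIntegral ℤ x := by
    refine ⟨Polynomial.X ^ 2 - (Polynomial.C A * Polynomial.X + Polynomial.C (B ^ 2)), ?_, ?_⟩
    · monicity!
    · rw [Polynomial.eval₂_sub, Polynomial.eval₂_pow, Polynomial.eval₂_X, Polynomial.eval₂_add,
        Polynomial.eval₂_mul, Polynomial.eval₂_C, Polynomial.eval₂_X, Polynomial.eval₂_C, hx]
      simp
  obtain ⟨X, hX⟩ : ∃ X : 𝓞 F, algebraMap (𝓞 F) F X = x := ⟨⟨x, hint⟩, rfl⟩
  have hXX : X * ((A : 𝓞 F) - X) = -(B : 𝓞 F) ^ 2 := by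
    apply FaithfulSMul.algebraMap_injective (𝓞 F) F
    rw [map_mul, map_sub, map_intCast, map_neg, map_pow, map_intCast, hX]
    linear_combination -hx
  have hvp := v.isPrime
  by_cases hm : X ∈ v.asIdeal
  · have hm' : (A : 𝓞 F) - X ∉ v.asIdeal := by
      intro h
      have hA : (A : 𝓞 F) ∈ v.asIdeal := by
        have := v.asIdeal.add_mem h hm
        rwa [sub_add_cancel] at this
      have hB : (B : 𝓞 F) ∈ v.asIdeal := by
        have h1 : -(B : 𝓞 F) ^ 2 ∈ v.asIdeal := by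
          rw [← hXX]
          exact v.asIdeal.mul_mem_right _ hm
        exact hvp.mem_of_pow_mem 2 (neg_mem_iff.1 h1)
      obtain ⟨p, q, hpq⟩ := hAB
      apply hvp.ne_top
      rw [Ideal.eq_top_iff_one]
      have h2 : ((p * A + q * B : ℤ) : 𝓞 F) ∈ v.asIdeal := by
        push_cast
        exact v.asIdeal.add_mem (v.asIdeal.mul_mem_left _ hA) (v.asIdeal.mul_mem_left _ hB)
      rwa [hpq, Int.cast_one] at h2
    refine ⟨(B : F), ?_⟩
    have h3 : v.valuation F (algebraMap (𝓞 F) F ((A : 𝓞 F) - X)) = 1 :=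
      v.valuation_eq_one_iff_notMem.2 hm'
    have h4 : v.valuation F (algebraMap (𝓞 F) F (X * ((A : 𝓞 F) - X))) =
        v.valuation F (B : F) ^ 2 := by
      rw [hXX, map_neg, map_pow, map_intCast, Valuation.map_neg, map_pow]
    rw [← h4, map_mul, map_mul, h3, mul_one, hX]
  · refine ⟨1, ?_⟩
    rw [map_one, one_pow, ← hX]
    exact v.valuation_eq_one_iff_notMem.2 hm

/-- embeddings of a quadratic field -/
theorem ext_quad (h2 : Module.finrank ℚ F = 2) {x : F} (hx : x ∉ Set.range (algebraMap ℚ F))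
    {φ φ' : F →+* ℝ} (h : φ x = φ' x) : φ = φ' := by
  let K0 : IntermediateField ℚ F := (RingHom.eqLocusField φ φ').toIntermediateField
    (fun q => by
      change φ (algebraMap ℚ F q) = φ' (algebraMap ℚ F q)
      simp)
  have hmem : x ∈ K0 := h
  have hdvd : Module.finrank ℚ K0 ∣ 2 := by
    rw [← h2]
    exact ⟨_, (Module.finrank_mul_finrank ℚ K0 F).symm⟩
  have h1 : Module.finrank ℚ K0 ≠ 1 := by
    intro h1
    rw [IntermediateField.finrank_eq_one_iff] at h1
    rw [h1, IntermediateField.mem_bot] at hmem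
    exact hx hmem
  have h3 : Module.finrank ℚ K0 = 2 := (Nat.dvd_prime Nat.prime_two).1 hdvd |>.resolve_left h1
  have h4 : K0 = ⊤ := by
    apply IntermediateField.eq_of_le_of_finrank_eq le_top
    rw [h3, IntermediateField.finrank_top', h2]
  ext y
  have h5 : y ∈ K0 := by
    rw [h4]
    exact IntermediateField.mem_top
  exact h5

/-- all signatures -/
theorem signs_root (h2 : Module.finrank ℚ F = 2) {A B : ℤ} (hAB : IsCoprime A B) (hB : B ≠ 0)
    {x : F} (hx : x ^ 2 = A * x + B ^ 2) (hxQ : x ∉ Set.range (algebraMap ℚ F))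
    (s : Set (F →+* ℝ)) : ∃ x : F, x ≠ 0 ∧ (∀ φ : F →+* ℝ, φ x < 0 ↔ φ ∈ s) ∧
      ∀ v : HeightOneSpectrum (𝓞 F), EvenVal v x := by
  classical
  have hx0 : x ≠ 0 := by
    rintro rfl
    apply hB
    have h1 : (B : F) ^ 2 = 0 := by
      rw [mul_zero, zero_add] at hx
      rw [← hx]
      exact zero_pow two_ne_zero
    exact_mod_cast pow_eq_zero_iff two_ne_zero |>.1 h1
  have hroot : ∀ φ : F →+* ℝ, φ x ^ 2 = A * φ x + (B : ℝ) ^ 2 := by
    intro φ
    rw [← map_pow, hx, map_add, map_mul, map_pow, map_intCast, map_intCast]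
  have hneg : ∀ φ φ' : F →+* ℝ, φ ≠ φ' → φ x * φ' x < 0 := by
    intro φ φ' hne
    have h3 : φ x ≠ φ' x := fun h => hne (ext_quad h2 hxQ h)
    have h4 : (φ x - φ' x) * (φ x + φ' x - A) = 0 := by
      linear_combination hroot φ - hroot φ'
    have h5 : φ x + φ' x - A = 0 := (mul_eq_zero.1 h4).resolve_left (sub_ne_zero.2 h3)
    have h6 : φ x * φ' x = -(B : ℝ) ^ 2 := by
      linear_combination φ x * h5 - hroot φ
    rw [h6]
    have h7 : (B : ℝ) ≠ 0 := Int.cast_ne_zero.2 hB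
    have h8 : 0 < (B : ℝ) ^ 2 := by positivity
    linarith
  have hev := evenVal_root hAB hx
  by_cases hs : ∃ φ0, φ0 ∈ s
  · obtain ⟨φ0, h0⟩ := hs
    by_cases hs' : ∃ φ1, φ1 ∉ s
    · obtain ⟨φ1, h1⟩ := hs'
      have h01 : φ0 ≠ φ1 := fun h => h1 (h ▸ h0)
      have key : ∀ y : F, φ0 y < 0 → (∀ φ φ' : F →+* ℝ, φ ≠ φ' → φ y * φ' y < 0) →
          ∀ φ : F →+* ℝ, φ y < 0 ↔ φ ∈ s := by
        intro y hy hyy φ
        have h3 : 0 < φ1 y := by
          have := hyy φ0 φ1 h01
          nlinarith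
        constructor
        · intro h
          by_cases h4 : φ = φ0
          · rw [h4]
            exact h0
          · have := hyy φ φ0 h4
            nlinarith
        · intro h
          have h4 : φ ≠ φ1 := fun h5 => h1 (h5 ▸ h)
          have := hyy φ φ1 h4
          nlinarith
      rcases lt_or_gt_of_ne ((map_ne_zero φ0).2 hx0) with h | h
      · exact ⟨x, hx0, key x h hneg, hev⟩
      · refine ⟨-x, neg_ne_zero.2 hx0, key (-x) (by rw [map_neg]; linarith) (fun φ φ' hne => ?_),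
          fun v => ?_⟩
        · rw [map_neg, map_neg, neg_mul_neg]
          exact hneg φ φ' hne
        · obtain ⟨y, hy⟩ := hev v
          exact ⟨y, by rw [Valuation.map_neg]; exact hy⟩
    · push Not at hs'
      refine ⟨-1, neg_ne_zero.2 one_ne_zero, fun φ => ⟨fun _ => hs' φ, fun _ => ?_⟩, fun v =>
        ⟨1, by rw [Valuation.map_neg, map_one, one_pow]⟩⟩
      rw [map_neg, map_one]
      norm_num
  · push Not at hs
    refine ⟨1, one_ne_zero, fun φ => ⟨fun h => ?_, fun h => absurd h (hs φ)⟩, fun v =>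
      ⟨1, by rw [map_one, one_pow]⟩⟩
    rw [map_one] at h
    exact absurd h (by norm_num)

theorem signs_even (h2 : Module.finrank ℚ F = 2) {a b : ℤ} (hab : IsCoprime a b) (hb : Even b)
    {d : F} (hd : d ^ 2 = a ^ 2 + b ^ 2) (hdQ : d ∉ Set.range (algebraMap ℚ F))
    (s : Set (F →+* ℝ)) : ∃ x : F, x ≠ 0 ∧ (∀ φ : F →+* ℝ, φ x < 0 ↔ φ ∈ s) ∧
      ∀ v : HeightOneSpectrum (𝓞 F), EvenVal v x := by
  obtain ⟨B, rfl⟩ := hb
  have hB : B ≠ 0 := by
    rintro rfl
    have h1 : (d - a) * (d + a) = 0 := by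
      push_cast at hd
      linear_combination hd
    rcases mul_eq_zero.1 h1 with h3 | h3
    · exact hdQ ⟨a, by rw [sub_eq_zero] at h3; rw [h3]; simp⟩
    · exact hdQ ⟨-a, by rw [eq_neg_of_add_eq_zero_left h3]; simp⟩
  have hAB : IsCoprime a B := by
    have h1 : IsCoprime a (2 * B) := by rwa [two_mul]
    exact h1.of_mul_right_right
  refine signs_root h2 hAB hB (x := (a + d) / 2) ?_ ?_ s
  · push_cast at hd
    field_simp
    linear_combination hd
  · rintro ⟨q, hq⟩
    apply hdQ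
    refine ⟨2 * q - a, ?_⟩
    rw [map_sub, map_mul, hq, map_ofNat, map_intCast]
    field_simp
    ring

/-- all signatures over the quadratic field generated by `√(a² + b²)` -/
theorem signs_sum (h2 : Module.finrank ℚ F = 2) {a b : ℤ} (hab : IsCoprime a b)
    {d : F} (hd : d ^ 2 = a ^ 2 + b ^ 2) (hdQ : d ∉ Set.range (algebraMap ℚ F))
    (s : Set (F →+* ℝ)) : ∃ x : F, x ≠ 0 ∧ (∀ φ : F →+* ℝ, φ x < 0 ↔ φ ∈ s) ∧
      ∀ v : HeightOneSpectrum (𝓞 F), EvenVal v x := by
  by_cases hb : Even b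
  · exact signs_even h2 hab hb hd hdQ s
  by_cases ha : Even a
  · exact signs_even h2 hab.symm ha (by rw [hd]; ring) hdQ s
  have hb' : Odd b := Int.not_even_iff_odd.1 hb
  have hb0 : b ≠ 0 := by
    rintro rfl
    exact hb Even.zero
  have h2b : IsCoprime 2 b := by
    obtain ⟨k, hk⟩ := hb'
    exact ⟨-k, 1, by rw [hk]; ring⟩
  refine signs_root h2 (A := 2 * a) (B := b) (h2b.mul_left hab) hb0 (x := a + d) ?_ ?_ s
  · push_cast
    linear_combination hd
  · rintro ⟨q, hq⟩
    apply hdQ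
    refine ⟨q - a, ?_⟩
    rw [map_sub, hq, map_intCast]
    ring

/-- even valuations outside two -/
theorem evenVal_two {a b : ℤ} (hab : IsCoprime a b) {d : F} (hd : d ^ 2 = a ^ 2 + 2 * b ^ 2)
    (v : HeightOneSpectrum (𝓞 F)) (h2 : (2 : 𝓞 F) ∉ v.asIdeal) : EvenVal v (a + d) := by
  have hint : IsIntegral ℤ d := by
    refine ⟨Polynomial.X ^ 2 - Polynomial.C (a ^ 2 + 2 * b ^ 2), ?_, ?_⟩
    · monicity!
    · rw [Polynomial.eval₂_sub, Polynomial.eval₂_pow, Polynomial.eval₂_X, Polynomial.eval₂_C, hd]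
      simp
  obtain ⟨X, hX⟩ : ∃ X : 𝓞 F, algebraMap (𝓞 F) F X = d := ⟨⟨d, hint⟩, rfl⟩
  have hXX : ((a : 𝓞 F) + X) * ((a : 𝓞 F) - X) = -(2 * (b : 𝓞 F) ^ 2) := by
    apply FaithfulSMul.algebraMap_injective (𝓞 F) F
    rw [map_mul, map_sub, map_add, map_intCast, map_neg, map_mul, map_pow, map_intCast, hX,
      map_ofNat]
    linear_combination -hd
  have hvp := v.isPrime
  have hx : ((a : F) + d) = algebraMap (𝓞 F) F ((a : 𝓞 F) + X) := by
    rw [map_add, map_intCast, hX]
  by_cases hm : (a : 𝓞 F) + X ∈ v.asIdeal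
  · have hm' : (a : 𝓞 F) - X ∉ v.asIdeal := by
      intro h
      have hA : (a : 𝓞 F) ∈ v.asIdeal := by
        have h1 := v.asIdeal.add_mem h hm
        have e : (a : 𝓞 F) - X + ((a : 𝓞 F) + X) = 2 * (a : 𝓞 F) := by ring
        rw [e] at h1
        exact (hvp.mem_or_mem h1).resolve_left h2
      have hB : (b : 𝓞 F) ∈ v.asIdeal := by
        have h1 : -(2 * (b : 𝓞 F) ^ 2) ∈ v.asIdeal := by
          rw [← hXX]
          exact v.asIdeal.mul_mem_right _ hm
        exact hvp.mem_of_pow_mem 2 ((hvp.mem_or_mem (neg_mem_iff.1 h1)).resolve_left h2)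
      obtain ⟨p, q, hpq⟩ := hab
      apply hvp.ne_top
      rw [Ideal.eq_top_iff_one]
      have h3 : ((p * a + q * b : ℤ) : 𝓞 F) ∈ v.asIdeal := by
        push_cast
        exact v.asIdeal.add_mem (v.asIdeal.mul_mem_left _ hA) (v.asIdeal.mul_mem_left _ hB)
      rwa [hpq, Int.cast_one] at h3
    refine ⟨(b : F), ?_⟩
    have h3 : v.valuation F (algebraMap (𝓞 F) F ((a : 𝓞 F) - X)) = 1 :=
      v.valuation_eq_one_iff_notMem.2 hm'
    have h5 : v.valuation F (algebraMap (𝓞 F) F 2) = 1 := v.valuation_eq_one_iff_notMem.2 h2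
    have h4 : v.valuation F (algebraMap (𝓞 F) F (((a : 𝓞 F) + X) * ((a : 𝓞 F) - X))) =
        v.valuation F (b : F) ^ 2 := by
      rw [hXX, map_neg, map_mul, map_pow, map_intCast, Valuation.map_neg, map_mul, map_pow, h5,
        one_mul]
    rw [← h4, map_mul, map_mul, h3, mul_one, hx]
  · refine ⟨1, ?_⟩
    rw [map_one, one_pow, hx]
    exact v.valuation_eq_one_iff_notMem.2 hm

section
variable {H G : Type} [Field H] [NumberField H] [Algebra F H]
  [CommGroup G] [Finite G] [MulSemiringAction G H] [IsGaloisGroup G F H]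

/-- real quadratic fields with an element of negative norm which is even outside two -/
theorem card_of_quad (D : RubinData F H G) (hG : ∀ g : G, g * g = 1)
    (hF : ∀ v : InfinitePlace F, v.IsReal) (h2 : Module.finrank ℚ F = 2) {x : F} (hx0 : x ≠ 0)
    (hneg : ∀ φ φ' : F →+* ℝ, φ ≠ φ' → φ x * φ' x < 0)
    (hev : ∀ v : HeightOneSpectrum (𝓞 F), (2 : 𝓞 F) ∉ v.asIdeal → EvenVal v x) :
    Nat.card (Sg D) ≤ 2 ^ sc D := by
  classical
  by_cases h : ∃ v : HeightOneSpectrum (𝓞 F), (2 : 𝓞 F) ∈ v.asIdeal ∧ Unramified H v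
  · obtain ⟨v, hv, hu⟩ := h
    refine Pool.Agent.BT9.card_of_wild D hG
      ⟨(Pool.Agent.STk.two_finite (K := F)).toFinset.erase v, fun w hw hw' => ?_, ?_⟩
    · rw [Finset.mem_erase]
      refine ⟨?_, (Set.Finite.mem_toFinset _).2 hw⟩
      rintro rfl
      exact hw' (Pool.Agent.H788.BT.squarefree_of_unr hu)
    · have h1 : ∑ w ∈ (Pool.Agent.STk.two_finite (K := F)).toFinset, deg2 w ≤
          Module.finrank ℚ F :=
        Pool.Agent.STk.sum_deg_le fun v hv =>
          (Set.Finite.mem_toFinset Pool.Agent.STk.two_finite).1 hv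
      rw [← Finset.add_sum_erase _ deg2
        ((Set.Finite.mem_toFinset (Pool.Agent.STk.two_finite (K := F))).2 hv)] at h1
      have h3 := Pool.Agent.STk.deg2_pos hv
      omega
  · push Not at h
    refine card_of_signs D hG hF (Or.inr (Or.inr fun χ => ?_))
    have hneg' : ∀ y : F, (∀ φ φ' : F →+* ℝ, φ ≠ φ' → φ y * φ' y < 0) →
        χ (algebraMap F H y) < 0 → ∀ χ' : H →+* ℝ,
        χ'.comp (algebraMap F H) ≠ χ.comp (algebraMap F H) → 0 < χ' (algebraMap F H y) := by
      intro y hy h3 χ' hne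
      have h4 := hy _ _ hne
      change χ' (algebraMap F H y) * χ (algebraMap F H y) < 0 at h4
      nlinarith
    have hne0 : χ (algebraMap F H x) ≠ 0 :=
      (map_ne_zero χ).2 ((map_ne_zero (algebraMap F H)).2 hx0)
    have hev' : ∀ v : HeightOneSpectrum (𝓞 F),
        Squarefree (v.asIdeal.map (algebraMap (𝓞 F) (𝓞 H))) → EvenVal v x := fun v hv =>
      hev v fun h3 => h v h3 (Pool.Agent.H509.Rec.unr_of_squarefree hv)
    rcases lt_or_gt_of_ne hne0 with h3 | h3
    · exact ⟨x, h3, hneg' x hneg h3, hev'⟩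
    · have h4 : χ (algebraMap F H (-x)) < 0 := by
        rw [map_neg, map_neg]
        linarith
      refine ⟨-x, h4, hneg' (-x) (fun φ φ' hne => ?_) h4, fun v hv => ?_⟩
      · rw [map_neg, map_neg, neg_mul_neg]
        exact hneg φ φ' hne
      · obtain ⟨y, hy⟩ := hev' v hv
        exact ⟨y, by rw [Valuation.map_neg]; exact hy⟩

/-- `F = ℚ(√(a² + b²))` or `F = ℚ(√(a² + 2 b²))` -/
theorem card_of_sums (D : RubinData F H G) (hG : ∀ g : G, g * g = 1)
    (hF : ∀ v : InfinitePlace F, v.IsReal) (h2 : Module.finrank ℚ F = 2) {a b : ℤ}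
    (hab : IsCoprime a b) {d : F} (hd : d ^ 2 = a ^ 2 + b ^ 2 ∨ d ^ 2 = a ^ 2 + 2 * b ^ 2)
    (hdQ : d ∉ Set.range (algebraMap ℚ F)) : Nat.card (Sg D) ≤ 2 ^ sc D := by
  rcases hd with hd | hd
  · exact card_of_signs2 D hG hF (Or.inr (Or.inl (signs_sum h2 hab hd hdQ)))
  · have hb : b ≠ 0 := by
      rintro rfl
      have h1 : (d - a) * (d + a) = 0 := by
        push_cast at hd
        linear_combination hd
      rcases mul_eq_zero.1 h1 with h3 | h3
      · exact hdQ ⟨a, by rw [sub_eq_zero] at h3; rw [h3]; simp⟩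
      · exact hdQ ⟨-a, by rw [eq_neg_of_add_eq_zero_left h3]; simp⟩
    have hroot : ∀ φ : F →+* ℝ, φ d ^ 2 = (a : ℝ) ^ 2 + 2 * (b : ℝ) ^ 2 := by
      intro φ
      rw [← map_pow, hd, map_add, map_mul, map_pow, map_pow, map_intCast, map_intCast, map_ofNat]
    have hb' : (b : ℝ) ≠ 0 := Int.cast_ne_zero.2 hb
    have hb2 : 0 < (b : ℝ) ^ 2 := by positivity
    refine card_of_quad D hG hF h2 (x := a + d) ?_ ?_ (fun v hv => evenVal_two hab hd v hv)
    · intro h0
      apply hdQ
      exact ⟨-a, by rw [eq_neg_of_add_eq_zero_right h0]; simp⟩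
    · intro φ φ' hne
      have h3 : φ d ≠ φ' d := fun h => hne (ext_quad h2 hdQ h)
      have h4 : (φ d - φ' d) * (φ d + φ' d) = 0 := by
        linear_combination hroot φ - hroot φ'
      have h5 : φ d + φ' d = 0 := (mul_eq_zero.1 h4).resolve_left (sub_ne_zero.2 h3)
      have h6 : φ (a + d) * φ' (a + d) = -(2 * (b : ℝ) ^ 2) := by
        rw [map_add, map_add, map_intCast, map_intCast]
        linear_combination (a + φ d) * h5 - hroot φ
      rw [h6]
      linarith

end

end Pool.Agent.H896.SG
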