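import Pool.Agent.H896.SG.Iso3
import Pool.Agent.H509.ST.Deg

/-!
# Totally real fields with independent signs
-/

set_option autoImplicit false
set_option linter.unusedSectionVars false
set_option linter.deprecated false

open NumberField IsDedekindDomain Filter Topology Module

noncomputable section

namespace Pool.Agent.H896.SG

open Pool.Agent.BT9
open Pool.Agent.Q92.AR (Dv prin Pr Ray nmD nu up sD puD Cong Pos frob IsFrobenius Unramified Ram art
  prin_mul prin_one prin_inv)
open Pool.Agent.K3h30.RS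
open Pool.Agent.K3h73.E2 (Below exists_below exists_over below_unique conj_of_below below_of_conj)
open Pool.Agent.H627.BT (cF cF' dF nrm_pos dF_pos e2_zero lb_eq exists_cc)

variable {F H G : Type} [Field F] [NumberField F] [Field H] [NumberField H] [Algebra F H]
  [CommGroup G] [Finite G] [MulSemiringAction G H]

/-- the count (the proof of `Pool.Agent.H627.BT.wild`, with the bound with signs) -/
theorem wild3 [IsGaloisGroup G F H] (D : RubinData F H G) (hexp : ∀ g : G, g * g = 1) (Λ : Lam D)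
    (k l : ℕ) (hiso : 2 ^ k * Nat.card (Sg D) ^ 2 ≤ (letI := Λ.fin; ∏ i, lb F (Λ.u i)) * 2 ^ l)
    (W : Finset (HeightOneSpectrum (𝓞 F)))
    (hW : ∀ v : HeightOneSpectrum (𝓞 F), (2 : 𝓞 F) ∈ v.asIdeal → ¬ Unramified H v → v ∈ W)
    (hsum : l + ∑ v ∈ W, deg2 v ≤ k + 1 + Nat.card (RC F H)) : Nat.card (Sg D) ≤ 2 ^ sc D := by
  classical
  let _ := Λ.fin
  have hb : ∀ i, ∃ p : InfinitePlace F ⊕ HeightOneSpectrum (𝓞 F), Below p (Λ.u i) :=
    fun i => exists_below (Λ.u i)
  choose p hp using hb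
  have hpinj : Function.Injective p := by
    intro i i' h
    have h3 := hp i'
    rw [← h] at h3
    exact Λ.inj i i' (conj_of_below (hp i) h3)
  have hprod : 2 ^ k * Nat.card (Sg D) ^ 2 ≤ (∏ i, cF F (p i)) * (∏ i, dF F H (p i)) * 2 ^ l := by
    rw [← Finset.prod_mul_distrib]
    refine hiso.trans (le_of_eq ?_)
    congr 1
    exact Finset.prod_congr rfl fun i _ => lb_eq (hp i)
  -- the wild part
  have hd : 2 ^ l * ∏ i, dF F H (p i) ≤ 2 ^ (k + 1 + Nat.card (RC F H)) := by
    have e1 : ∏ i, dF F H (p i) = ∏ q ∈ Finset.univ.image p, dF F H q :=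
      (Finset.prod_image fun i _ i' _ h => hpinj h).symm
    have e2' : ∏ q ∈ Finset.univ.image p, dF F H q =
        ∏ q ∈ (Finset.univ.image p).filter (fun q => dF F H q ≠ 1), dF F H q :=
      (Finset.prod_filter_ne_one _).symm
    let W' := W.filter fun v => (2 : 𝓞 F) ∈ v.asIdeal
    have hsub : (Finset.univ.image p).filter (fun q => dF F H q ≠ 1) ⊆
        W'.image (Sum.inr : HeightOneSpectrum (𝓞 F) → InfinitePlace F ⊕ HeightOneSpectrum (𝓞 F)) := by
      intro q hq
      have hq2 := (Finset.mem_filter.1 hq).2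
      rcases q with v | v
      · exact absurd rfl hq2
      · have h3 : ¬ Unramified H v := fun h => hq2 (if_pos h)
        have h4 : dF F H (Sum.inr v) = Ideal.absNorm v.asIdeal ^ e2 v := if_neg h3
        have h5 : (2 : 𝓞 F) ∈ v.asIdeal := by
          by_contra h6
          rw [h4, e2_zero h6, pow_zero] at hq2
          exact hq2 rfl
        exact Finset.mem_image.2 ⟨v, Finset.mem_filter.2 ⟨hW v h5 h3, h5⟩, rfl⟩
    rw [e1, e2']
    calc 2 ^ l * ∏ q ∈ (Finset.univ.image p).filter (fun q => dF F H q ≠ 1), dF F H q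
        ≤ 2 ^ l * ∏ q ∈ W'.image Sum.inr, dF F H q := Nat.mul_le_mul_left _ <|
          Finset.prod_le_prod_of_subset_of_one_le' hsub fun q _ _ => dF_pos q
      _ = 2 ^ l * ∏ v ∈ W', dF F H (Sum.inr v) := by
          rw [Finset.prod_image fun a _ b _ h => Sum.inr_injective h]
      _ ≤ 2 ^ l * ∏ v ∈ W', 2 ^ deg2 v := by
          refine Nat.mul_le_mul_left _ (Finset.prod_le_prod' fun v hv => ?_)
          rw [← Pool.Agent.H161.BT.n2 F v (Finset.mem_filter.1 hv).2]
          show (if Unramified H v then 1 else Ideal.absNorm v.asIdeal ^ e2 v) ≤ _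
          split_ifs
          · exact nrm_pos v
          · exact le_refl _
      _ = 2 ^ (l + ∑ v ∈ W', deg2 v) := by
          rw [Finset.prod_pow_eq_pow_sum, ← pow_add]
      _ ≤ 2 ^ (k + 1 + Nat.card (RC F H)) := by
          refine Nat.pow_le_pow_right (by norm_num) (le_trans ?_ hsum)
          exact Nat.add_le_add_left
            (Finset.sum_le_sum_of_subset (Finset.filter_subset _ _)) _
  -- the archimedean part
  have hRC : 2 ^ Nat.card (RC F H) ≤ ∏ i, cF' F (p i) := by
    have h3 : ∀ v : RC F H, ∃ i, p i = Sum.inl v.1 := by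
      intro v
      obtain ⟨w, γ, hw, hf, hγ⟩ := exists_cc (G := G) v.1 v.2.1 v.2.2
      have h4 : ∀ j, ¬ Conj G (Sum.inl w : Place H) (D.w j) := fun j hj =>
        hγ (D.splits j γ (Pool.Agent.H509.E3.fixes_conj hj hf))
      obtain ⟨i, hi⟩ := Λ.all (Sum.inl w) trivial h4
      exact ⟨i, (below_of_conj (p := Sum.inl v.1) (w := Sum.inl w) hw (hp i) hi).symm⟩
    choose k hk using h3
    have hkinj : Function.Injective k := by
      intro v v' h
      have h4 := hk v
      rw [h, hk v'] at h4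
      exact (Subtype.ext (Sum.inl_injective h4)).symm
    have hfin : Finite (RC F H) := Finite.of_injective k hkinj
    let _ := Fintype.ofFinite (RC F H)
    have h4 : ∏ i ∈ Finset.univ.image k, cF' F (p i) = 2 ^ Nat.card (RC F H) := by
      rw [Finset.prod_image fun a _ b _ h => hkinj h]
      have h5 : ∀ v : RC F H, cF' F (p (k v)) = 2 := fun v => by rw [hk v]; rfl
      rw [Finset.prod_congr rfl fun v _ => h5 v, Finset.prod_const, Finset.card_univ,
        Nat.card_eq_fintype_card]
    rw [← h4]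
    refine Finset.prod_le_prod_of_subset_of_one_le' (Finset.subset_univ _) fun i _ _ => ?_
    rcases p i with v | v
    · exact one_le_two
    · exact le_refl 1
  have hcc : (∏ i, cF F (p i)) * ∏ i, cF' F (p i) = 4 ^ Nat.card Λ.ι := by
    rw [← Finset.prod_mul_distrib]
    have h3 : ∀ i, cF F (p i) * cF' F (p i) = 4 := by
      intro i
      rcases p i with v | v
      · rfl
      · rfl
    rw [Finset.prod_congr rfl fun i _ => h3 i, Finset.prod_const, Finset.card_univ,
      Nat.card_eq_fintype_card]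
  have hsc : sc D = Nat.card Λ.ι := by
    have := Λ.card
    unfold sc
    omega
  have hfinal : 2 ^ k * Nat.card (Sg D) ^ 2 ≤ 2 ^ k * (2 * 4 ^ Nat.card Λ.ι) := by
    calc 2 ^ k * Nat.card (Sg D) ^ 2 ≤ (∏ i, cF F (p i)) * (∏ i, dF F H (p i)) * 2 ^ l := hprod
      _ = (∏ i, cF F (p i)) * (2 ^ l * ∏ i, dF F H (p i)) := by ring
      _ ≤ (∏ i, cF F (p i)) * 2 ^ (k + 1 + Nat.card (RC F H)) := Nat.mul_le_mul_left _ hd
      _ = 2 ^ k * (2 * ((∏ i, cF F (p i)) * 2 ^ Nat.card (RC F H))) := by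
          rw [pow_add, pow_add]; ring
      _ ≤ 2 ^ k * (2 * ((∏ i, cF F (p i)) * ∏ i, cF' F (p i))) :=
          Nat.mul_le_mul_left _ (Nat.mul_le_mul_left _ (Nat.mul_le_mul_left _ hRC))
      _ = 2 ^ k * (2 * 4 ^ Nat.card Λ.ι) := by rw [hcc]
  have hfinal' : Nat.card (Sg D) ^ 2 ≤ 2 * 4 ^ Nat.card Λ.ι :=
    Nat.le_of_mul_le_mul_left hfinal (by positivity)
  -- power of two
  have : Fact (Nat.Prime 2) := ⟨Nat.prime_two⟩
  obtain ⟨m, hm⟩ := (IsPGroup.iff_card (p := 2) (G := Sg D)).1 fun g => ⟨1, by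
      rw [pow_one, pow_two]
      exact Subtype.ext (hexp g)⟩
  rw [hsc, hm]
  rw [hm] at hfinal'
  refine Nat.pow_le_pow_right (by norm_num) ?_
  have h3 : (2 ^ m) ^ 2 = 2 ^ (2 * m) := by rw [← pow_mul, mul_comm]
  have h4 : 2 * 4 ^ Nat.card Λ.ι = 2 ^ (2 * Nat.card Λ.ι + 1) := by
    rw [show (4 : ℕ) = 2 ^ 2 from rfl, ← pow_mul, pow_succ]
    ring
  rw [h3, h4] at hfinal'
  have h5 := (Nat.pow_le_pow_iff_right (by norm_num : 1 < 2)).1 hfinal'
  omega

/-- the real places of a field -/
theorem card_real (hF : ∀ v : InfinitePlace F, v.IsReal) :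
    Nat.card (InfinitePlace F) ≤ Nat.card {φ : F →+* ℝ // SplitR H φ} + Nat.card (RC F H) := by
  classical
  have hfinR : Finite (F →+* ℝ) := finite_real
  have hfinR' : Finite {φ : F →+* ℝ // SplitR H φ} := inferInstance
  have hfinC : Finite (RC F H) := by
    unfold RC
    infer_instance
  rw [← Nat.card_sum]
  have hφ : ∀ v : InfinitePlace F, ∃ φ : F →+* ℝ,
      InfinitePlace.mk ((algebraMap ℝ ℂ).comp φ) = v := by
    intro v
    have h1 : ComplexEmbedding.IsReal v.embedding := InfinitePlace.isReal_iff.1 (hF v)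
    refine ⟨h1.embedding, ?_⟩
    conv_rhs => rw [← InfinitePlace.mk_embedding v]
    congr 1
    ext x
    exact h1.coe_embedding_apply x
  choose φ hφ using hφ
  refine Nat.card_le_card_of_injective (fun v => if h : SplitR H (φ v) then
    (Sum.inl ⟨φ v, h⟩ : {φ : F →+* ℝ // SplitR H φ} ⊕ RC F H) else
    Sum.inr ⟨v, hF v, fun w hw => complex_of_not_split h w (hw.trans (hφ v).symm)⟩) ?_
  intro v v' h
  dsimp only at h
  by_cases h1 : SplitR H (φ v)
  · by_cases h2 : SplitR H (φ v')
    · rw [dif_pos h1, dif_pos h2] at h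
      have h3 := congrArg Subtype.val (Sum.inl_injective h)
      rw [← hφ v, ← hφ v']
      exact congrArg (fun φ => InfinitePlace.mk ((algebraMap ℝ ℂ).comp φ)) h3
    · rw [dif_pos h1, dif_neg h2] at h
      exact absurd h (by simp)
  · by_cases h2 : SplitR H (φ v')
    · rw [dif_neg h1, dif_pos h2] at h
      exact absurd h (by simp)
    · rw [dif_neg h1, dif_neg h2] at h
      exact congrArg Subtype.val (Sum.inr_injective h)

/-- **the bound for totally real fields with independent signs** -/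
theorem card_le_signs [IsGaloisGroup G F H] (D : RubinData F H G) (hG : ∀ g : G, g * g = 1)
    (Λ : Lam D) (hF : ∀ v : InfinitePlace F, v.IsReal)
    (hx : ∀ φ : F →+* ℝ, SplitR H φ → ∃ z : Fˣ, φ (z : F) < 0 ∧
      (∀ φ', φ' ≠ φ → SplitR H φ' → 0 < φ' (z : F)) ∧ ∀ v, Unramified H v → Even (prin z v)) :
    Nat.card (Sg D) ≤ 2 ^ sc D := by
  classical
  let T2 : Finset (HeightOneSpectrum (𝓞 F)) := (Pool.Agent.STk.two_finite (K := F)).toFinset
  have hT2 : ∀ v, v ∈ T2 ↔ (2 : 𝓞 F) ∈ v.asIdeal := fun v => Set.Finite.mem_toFinset _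
  have h1 := iso3 D hG Λ (T2.filter fun v => Unramified H v) (fun v => by
    rw [Finset.mem_filter, hT2]) hx
  refine wild3 D hG Λ _ _ h1 (T2.filter fun v => ¬ Unramified H v) (fun v hv hr => by
    rw [Finset.mem_filter, hT2]
    exact ⟨hv, hr⟩) ?_
  rw [Finset.sum_filter_add_sum_filter_not]
  have h2 : ∑ v ∈ T2, deg2 v ≤ Module.finrank ℚ F :=
    Pool.Agent.STk.sum_deg_le fun v hv => (hT2 v).1 hv
  have htr : IsTotallyReal F := ⟨hF⟩
  have h3 : Module.finrank ℚ F = Nat.card (InfinitePlace F) := by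
    rw [IsTotallyReal.finrank, Nat.card_eq_fintype_card,
      InfinitePlace.card_eq_nrRealPlaces_add_nrComplexPlaces]
    have h4 : InfinitePlace.nrComplexPlaces F = 0 := IsTotallyReal.nrComplexPlaces_eq_zero F
    omega
  have h4 := card_real (H := H) hF
  omega

end Pool.Agent.H896.SG
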